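import Pool.Agent.Y844.DM.ExpM

set_option autoImplicit false

/-! Examples: the powers of `e`; `e`, `√2` and the golden ratio. -/

namespace Pool.Agent.Y844.DM
open Finset Polynomial Module
open Pool.Agent.TH629.ExpAlg (exp_one_transcendental four_indep finrank_sqrt_le)

/-- `1, e, ..., e ^ r` -/
lemma li_powers (r : ℕ) : LinearIndependent ℚ (Fin.cons 1 (fun j : Fin r => Real.exp 1 ^ ((j : ℕ) + 1)) : Fin (r + 1) → ℝ) := by
  have e1 : (Fin.cons 1 (fun j : Fin r => Real.exp 1 ^ ((j : ℕ) + 1)) : Fin (r + 1) → ℝ) = fun j : Fin (r + 1) => Real.exp 1 ^ (j : ℕ) := by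
    ext j
    refine Fin.cases ?_ (fun j => ?_) j
    · simp
    · simp
  rw [e1, Fintype.linearIndependent_iff]
  intro g hg
  obtain ⟨P, hP⟩ : ∃ P : ℚ[X], P = ∑ j : Fin (r + 1), C (g j) * X ^ (j : ℕ) := ⟨_, rfl⟩
  have h0 : aeval (Real.exp 1) P = 0 := by
    rw [hP, map_sum, ← hg]
    apply Finset.sum_congr rfl
    intro j _
    rw [map_mul, map_pow, aeval_C, aeval_X, Rat.smul_def]
    rfl
  have hP0 : P = 0 := by
    by_contra hne
    exact exp_one_transcendental ⟨P, hne, h0⟩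
  intro i
  have h1 : P.coeff (i : ℕ) = g i := by
    rw [hP, finsetSum_coeff]
    rw [Finset.sum_eq_single i]
    · rw [coeff_C_mul, coeff_X_pow, if_pos rfl, mul_one]
    · intro j _ hj
      rw [coeff_C_mul, coeff_X_pow, if_neg, mul_zero]
      intro h
      exact hj (Fin.ext h.symm)
    · intro h
      exact absurd (Finset.mem_univ i) h
  rw [hP0, coeff_zero] at h1
  exact h1.symm

theorem dioL_powers (r : ℕ) : ∃ τ : ℕ, DioL τ (fun j : Fin r => Real.exp 1 ^ ((j : ℕ) + 1)) := by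
  have hbot : FiniteDimensional ℚ (⊥ : IntermediateField ℚ ℝ) := inferInstance
  have e1 : (fun j : Fin r => (((1 : (⊥ : IntermediateField ℚ ℝ)) : (⊥ : IntermediateField ℚ ℝ)) : ℝ) * Real.exp ((((j : ℕ) + 1 : ℕ)) : ℝ)) =
      fun j : Fin r => Real.exp 1 ^ ((j : ℕ) + 1) := by
    ext j
    rw [← Real.exp_nat_mul, mul_one]
    simp
  have h := dioL_exp (⊥ : IntermediateField ℚ ℝ) (fun _ : Fin r => 1) (fun j => (j : ℕ) + 1) (by
    rw [e1]
    exact li_powers r)
  rw [e1] at h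
  exact h

/-- `1, e, √2, φ` -/
lemma li_three : LinearIndependent ℚ (Fin.cons 1 ![Real.exp 1, √2, Real.goldenRatio] : Fin (3 + 1) → ℝ) := by
  rw [Fintype.linearIndependent_iff]
  intro g hg
  rw [Fin.sum_univ_succ, Fin.sum_univ_three] at hg
  simp only [Fin.cons_zero, Fin.cons_succ, Rat.smul_def, mul_one] at hg
  have hg' : (g 0 : ℝ) + g 1 * Real.exp 1 + g 2 * √2 + g 3 * Real.goldenRatio = 0 := by
    have : (g 0 : ℝ) + ((g 1 : ℝ) * Real.exp 1 + g 2 * √2 + g 3 * Real.goldenRatio) = 0 := hg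
    linarith
  have h1 : g 1 = 0 := by
    by_contra hne
    have hne' : (g 1 : ℝ) ≠ 0 := by exact_mod_cast hne
    have he : Real.exp 1 = -((g 0 : ℝ) + g 2 * √2 + g 3 * Real.goldenRatio) / g 1 := by
      rw [eq_div_iff hne']
      linarith
    apply exp_one_transcendental
    obtain ⟨i2, -⟩ := finrank_sqrt_le 2
    obtain ⟨i5, -⟩ := finrank_sqrt_le 5
    push_cast at i2 i5
    have hq : ∀ q : ℚ, IsAlgebraic ℚ (q : ℝ) := fun q => isAlgebraic_algebraMap q
    have hφ : IsAlgebraic ℚ Real.goldenRatio := by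
      unfold Real.goldenRatio
      have h2 : ((2 : ℚ) : ℝ) = 2 := by norm_num
      rw [← h2]
      have h1' : ((1 : ℚ) : ℝ) = 1 := by norm_num
      rw [← h1']
      exact ((hq 1).add i5.isAlgebraic).mul (hq 2).inv
    rw [he]
    exact ((((hq (g 0)).add ((hq (g 2)).mul i2.isAlgebraic)).add ((hq (g 3)).mul hφ)).neg).mul (hq (g 1)).inv
  have h2 := four_indep ![g 0, g 3, g 2, 0] (by
    simp only [Matrix.cons_val_zero, Matrix.cons_val_one, Matrix.cons_val]
    rw [h1] at hg'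
    push_cast at hg' ⊢
    linarith)
  intro i
  fin_cases i
  · exact h2 0
  · exact h1
  · exact h2 2
  · exact h2 1

theorem dioL_three : ∃ τ : ℕ, DioL τ ![Real.exp 1, √2, Real.goldenRatio] := by
  obtain ⟨i2, f2⟩ := finrank_sqrt_le 2
  obtain ⟨i5, f5⟩ := finrank_sqrt_le 5
  push_cast at i2 f2 i5 f5
  have hfd2 : FiniteDimensional ℚ (IntermediateField.adjoin ℚ {(√2 : ℝ)}) :=
    IntermediateField.adjoin.finiteDimensional i2
  have hfd5 : FiniteDimensional ℚ (IntermediateField.adjoin ℚ {(√5 : ℝ)}) :=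
    IntermediateField.adjoin.finiteDimensional i5
  obtain ⟨K, hK⟩ : ∃ K : IntermediateField ℚ ℝ, K = IntermediateField.adjoin ℚ {(√2 : ℝ)} ⊔
    IntermediateField.adjoin ℚ {(√5 : ℝ)} := ⟨_, rfl⟩
  have hfd : FiniteDimensional ℚ K := by
    rw [hK]
    exact IntermediateField.finiteDimensional_sup _ _
  have hm2 : (√2 : ℝ) ∈ K := by
    rw [hK]
    exact (le_sup_left : IntermediateField.adjoin ℚ {(√2 : ℝ)} ≤ _)
      (IntermediateField.mem_adjoin_simple_self ℚ _)
  have hm5 : (√5 : ℝ) ∈ K := by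
    rw [hK]
    exact (le_sup_right : IntermediateField.adjoin ℚ {(√5 : ℝ)} ≤ _)
      (IntermediateField.mem_adjoin_simple_self ℚ _)
  have hmφ : Real.goldenRatio ∈ K := by
    unfold Real.goldenRatio
    have h2 : (2 : ℝ) ∈ K := ofNat_mem K 2
    exact div_mem (add_mem (one_mem K) hm5) h2
  obtain ⟨α, hα⟩ : ∃ α : Fin 3 → K, α = ![1, ⟨√2, hm2⟩, ⟨Real.goldenRatio, hmφ⟩] := ⟨_, rfl⟩
  obtain ⟨k, hk⟩ : ∃ k : Fin 3 → ℕ, k = ![1, 0, 0] := ⟨_, rfl⟩
  have hx : (fun i => (α i : ℝ) * Real.exp (k i)) = ![Real.exp 1, √2, Real.goldenRatio] := by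
    rw [hα, hk]
    ext i
    fin_cases i <;> simp
  have h := dioL_exp K α k (by rw [hx]; exact li_three)
  rw [hx] at h
  exact h

end Pool.Agent.Y844.DM
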