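import Pool.Agent.TH872.Mir2

set_option autoImplicit false

/-! The places at which the multiples of a number which is not a Liouville number are far from the integers. -/

namespace Pool.Agent.Y844.DM
open Finset
open Pool.Agent.TH872.Mir (Far farCount)

/-- a lower bound for the distances of the multiples of `x` from the integers -/
def Dio (τ : ℕ) (x : ℝ) : Prop := ∀ q : ℕ, 2 ≤ q → ∀ p : ℤ, 1 / (q : ℝ) ^ τ ≤ |(q : ℝ) * x - p|

lemma dio_of (x : ℝ) (hx : Irrational x) (h : ¬ Liouville x) : ∃ τ : ℕ, Dio τ x := by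
  unfold Liouville at h
  push Not at h
  obtain ⟨n, hn⟩ := h
  refine ⟨n, fun q hq p => ?_⟩
  have hq0 : (0 : ℝ) < q := by exact_mod_cast (by omega : 0 < q)
  have hq1 : (1 : ℝ) ≤ q := by exact_mod_cast (by omega : 1 ≤ q)
  have h1 := hn p q (by exact_mod_cast (by omega : 1 < q)) (by
    intro h2
    apply hx
    refine ⟨(p : ℚ) / (q : ℚ), ?_⟩
    push_cast
    rw [h2]
    push_cast
    rfl)
  have h2 : (q : ℝ) * x - p = q * (x - p / q) := by field_simp
  rw [h2, abs_mul, abs_of_pos hq0]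
  have h3 : 1 / (q : ℝ) ^ n ≤ |x - p / q| := by
    have := h1
    push_cast at this
    exact this
  calc 1 / (q : ℝ) ^ n ≤ |x - p / q| := h3
    _ = 1 * |x - p / q| := (one_mul _).symm
    _ ≤ q * |x - p / q| := mul_le_mul_of_nonneg_right hq1 (abs_nonneg _)

/-- a long run of near places -/
lemma near_chain (b : ℕ) (hb : 2 ≤ b) (L : ℕ) : ∀ y : ℝ, (∀ j < L + 1, ¬ Far (1 / (b : ℝ) ^ 2) ((b : ℝ) ^ j * y)) →
    ∃ n : ℤ, |y - n| < 1 / (b : ℝ) ^ (L + 2) := by
  have hbr : (2 : ℝ) ≤ b := by exact_mod_cast hb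
  have hb0 : (0 : ℝ) < b := by linarith
  induction L with
  | zero =>
    intro y h
    have h1 := h 0 (by omega)
    unfold Far at h1
    push Not at h1
    obtain ⟨n, hn⟩ := h1
    rw [pow_zero, one_mul] at hn
    exact ⟨n, hn⟩
  | succ L ih =>
    intro y h
    obtain ⟨n', hn'⟩ := ih (b * y) (by
      intro j hj
      have := h (j + 1) (by omega)
      have e1 : (b : ℝ) ^ (j + 1) * y = (b : ℝ) ^ j * (b * y) := by ring
      rw [e1] at this
      exact this)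
    have h1 := h 0 (by omega)
    unfold Far at h1
    push Not at h1
    obtain ⟨n, hn⟩ := h1
    rw [pow_zero, one_mul] at hn
    have h2 : |(b : ℝ) * y - b * n| < 1 / b := by
      rw [← mul_sub, abs_mul, abs_of_pos hb0]
      calc (b : ℝ) * |y - n| < b * (1 / (b : ℝ) ^ 2) := mul_lt_mul_of_pos_left hn hb0
        _ = 1 / b := by field_simp
    have h3 : (1 : ℝ) / b ≤ 1 / 2 := div_le_div_of_nonneg_left (by norm_num) (by norm_num) hbr
    have h4 : (1 : ℝ) / (b : ℝ) ^ (L + 2) ≤ 1 / 2 := by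
      apply div_le_div_of_nonneg_left (by norm_num) (by norm_num)
      calc (2 : ℝ) ≤ b := hbr
        _ = (b : ℝ) ^ 1 := (pow_one _).symm
        _ ≤ _ := pow_le_pow_right₀ (by linarith) (by omega)
    have h5 : |((n' - b * n : ℤ) : ℝ)| < 1 := by
      have e1 : ((n' - b * n : ℤ) : ℝ) = ((b : ℝ) * y - b * n) - (b * y - n') := by push_cast; ring
      rw [e1]
      refine lt_of_le_of_lt (abs_sub _ _) ?_
      linarith
    have h6 : n' - b * n = 0 := by
      rw [← Int.abs_lt_one_iff]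
      exact_mod_cast h5
    have h7 : (n' : ℝ) = b * n := by
      have : n' = b * n := by omega
      rw [this]
      push_cast
      ring
    refine ⟨n, ?_⟩
    rw [h7, ← mul_sub, abs_mul, abs_of_pos hb0] at hn'
    have h8 : (b : ℝ) * (1 / (b : ℝ) ^ (L + 1 + 2)) = 1 / (b : ℝ) ^ (L + 2) := by
      rw [show L + 1 + 2 = (L + 2) + 1 by ring, pow_succ]
      field_simp
    rw [← h8] at hn'
    exact lt_of_mul_lt_mul_left hn' hb0.le

/-- a lower bound for the distances of the multiples of `θ` from the integers, with a size `A` of `θ` -/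
def LowT (τ A : ℕ) (θ : ℝ) : Prop := ∀ q : ℕ, 2 ≤ q → ∀ p : ℤ, 1 / ((q * A : ℕ) : ℝ) ^ τ ≤ |(q : ℝ) * θ - p|

lemma Dio.low {τ : ℕ} {x : ℝ} (hx : Dio τ x) (l : ℤ) (hl : l ≠ 0) : LowT τ l.natAbs (l * x) := by
  intro q hq p
  have hl1 : 1 ≤ l.natAbs := Int.natAbs_pos.2 hl
  have hq' : 2 ≤ q * l.natAbs := by
    calc 2 = 2 * 1 := rfl
      _ ≤ q * l.natAbs := Nat.mul_le_mul hq hl1
  rcases le_or_gt 0 l with h0 | h0
  · have h1 : (l : ℝ) = (l.natAbs : ℝ) := by rw [Nat.cast_natAbs, abs_of_nonneg h0]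
    have h2 := hx _ hq' p
    have h3 : (q : ℝ) * (l * x) = ((q * l.natAbs : ℕ) : ℝ) * x := by
      rw [h1]; push_cast; ring
    rw [h3]
    exact h2
  · have h1 : (l : ℝ) = -(l.natAbs : ℝ) := by
      rw [Nat.cast_natAbs, abs_of_neg h0]; push_cast; ring
    have h2 := hx _ hq' (-p)
    have h3 : |(q : ℝ) * (l * x) - p| = |((q * l.natAbs : ℕ) : ℝ) * x - ((-p : ℤ) : ℝ)| := by
      rw [← abs_neg]
      congr 1
      rw [h1]; push_cast; ring
    rw [h3]
    exact h2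

/-- a far place in every long window -/
lemma far_window (b : ℕ) (hb : 2 ≤ b) (F f : ℕ) (hF : 2 ≤ F) (hf : F ≤ b ^ f) (τ A : ℕ) (hA1 : 1 ≤ A) (θ : ℝ) (hx : LowT τ A θ) (a : ℕ)
    (hla : A ≤ b ^ a) (J L : ℕ) (hL : τ * (f + a + J) ≤ L + 2) :
    ∃ j, J ≤ j ∧ j < J + L + 1 ∧ Far (1 / (b : ℝ) ^ 2) ((F : ℝ) * ((b : ℝ) ^ j * θ)) := by
  have hbr : (2 : ℝ) ≤ b := by exact_mod_cast hb
  have hb0 : (0 : ℝ) < b := by linarith
  by_contra hcon
  push Not at hcon
  obtain ⟨n, hn⟩ := near_chain b hb L ((F : ℝ) * ((b : ℝ) ^ J * θ)) (by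
    intro j hj
    have := hcon (J + j) (by omega) (by omega)
    have e1 : (F : ℝ) * ((b : ℝ) ^ (J + j) * θ) = (b : ℝ) ^ j * (F * ((b : ℝ) ^ J * θ)) := by
      rw [pow_add]; ring
    rw [e1] at this
    exact this)
  have hq : 2 ≤ F * b ^ J := by
    have h1 : 1 ≤ b ^ J := Nat.one_le_pow _ _ (by omega)
    calc 2 ≤ F := hF
      _ = F * 1 := by ring
      _ ≤ F * b ^ J := Nat.mul_le_mul_left _ h1
  have hqb : F * b ^ J * A ≤ b ^ (f + a + J) := by
    calc F * b ^ J * A ≤ b ^ f * b ^ J * b ^ a := Nat.mul_le_mul (Nat.mul_le_mul_right _ hf) hla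
      _ = _ := by rw [← pow_add, ← pow_add]; congr 1; ring
  have hlow : 1 / (b : ℝ) ^ (L + 2) ≤ |((F * b ^ J : ℕ) : ℝ) * θ - n| := by
    refine le_trans ?_ (hx _ hq n)
    apply div_le_div_of_nonneg_left (by norm_num) (by
      have : (0 : ℝ) < ((F * b ^ J * A : ℕ) : ℝ) := by
        have : 0 < F * b ^ J * A := Nat.mul_pos (by omega) (by omega)
        exact_mod_cast this
      positivity)
    have h1 : ((F * b ^ J * A : ℕ) : ℝ) ≤ (b : ℝ) ^ (f + a + J) := by exact_mod_cast hqb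
    calc ((F * b ^ J * A : ℕ) : ℝ) ^ τ ≤ ((b : ℝ) ^ (f + a + J)) ^ τ := pow_le_pow_left₀ (Nat.cast_nonneg _) h1 _
      _ = (b : ℝ) ^ (τ * (f + a + J)) := by rw [← pow_mul, mul_comm]
      _ ≤ _ := pow_le_pow_right₀ (by linarith) hL
  have h3 : (F : ℝ) * ((b : ℝ) ^ J * θ) = ((F * b ^ J : ℕ) : ℝ) * θ := by push_cast; ring
  rw [h3] at hn
  linarith

open Classical in
/-- windows which grow geometrically -/
lemma count_windows (b F : ℕ) (θ : ℝ) (R J₀ : ℕ) (hR : 1 ≤ R)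
    (h : ∀ J, J₀ ≤ J → ∃ j, J ≤ j ∧ j < R * J ∧ Far (1 / (b : ℝ) ^ 2) ((F : ℝ) * ((b : ℝ) ^ j * θ))) (n : ℕ) :
    n ≤ farCount b F (R ^ n * J₀) θ := by
  induction n with
  | zero => exact Nat.zero_le _
  | succ n ih =>
    have h1 : J₀ ≤ R ^ n * J₀ := Nat.le_mul_of_pos_left _ (Nat.pow_pos hR)
    obtain ⟨j, hj1, hj2, hj3⟩ := h (R ^ n * J₀) h1
    have h2 : R ^ (n + 1) * J₀ = R * (R ^ n * J₀) := by rw [pow_succ]; ring
    rw [h2]
    unfold farCount at ih ⊢
    have h3 : insert j ((range (R ^ n * J₀)).filter (fun j => Far (1 / (b : ℝ) ^ 2) ((F : ℝ) * ((b : ℝ) ^ j * θ)))) ⊆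
        (range (R * (R ^ n * J₀))).filter (fun j => Far (1 / (b : ℝ) ^ 2) ((F : ℝ) * ((b : ℝ) ^ j * θ))) := by
      intro i hi
      rw [mem_insert, mem_filter, mem_range] at hi
      rw [mem_filter, mem_range]
      rcases hi with hi | hi
      · rw [hi]; exact ⟨hj2, hj3⟩
      · refine ⟨lt_of_lt_of_le hi.1 ?_, hi.2⟩
        exact Nat.le_mul_of_pos_left _ hR
    have h4 := card_le_card h3
    rw [card_insert_of_notMem (by
      rw [mem_filter, mem_range]
      rintro ⟨h5, -⟩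
      omega)] at h4
    omega

/-- the number of the far places -/
theorem far_count (b : ℕ) (hb : 2 ≤ b) (F f : ℕ) (hF : 2 ≤ F) (hf : F ≤ b ^ f) (τ A : ℕ) (hA1 : 1 ≤ A) (θ : ℝ) (hx : LowT τ A θ) (a : ℕ)
    (hla : A ≤ b ^ a) (n k : ℕ) (hk : (2 * τ + 2) ^ n * (f + a + 1) ≤ k) :
    n ≤ farCount b F k θ := by
  classical
  have h1 := count_windows b F θ (2 * τ + 2) (f + a + 1) (by omega) (by
    intro J hJ
    obtain ⟨j, hj1, hj2, hj3⟩ := far_window b hb F f hF hf τ A hA1 θ hx a hla J (τ * (f + a + J)) (by omega)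
    refine ⟨j, hj1, ?_, hj3⟩
    have h2 : τ * (f + a + J) ≤ τ * (2 * J) := Nat.mul_le_mul_left _ (by omega)
    calc j < J + τ * (f + a + J) + 1 := hj2
      _ ≤ J + τ * (2 * J) + J := by omega
      _ = (2 * τ + 2) * J := by ring) n
  refine h1.trans ?_
  unfold farCount
  apply card_le_card
  intro i hi
  rw [mem_filter, mem_range] at hi ⊢
  exact ⟨by omega, hi.2⟩

/-- a lower bound for the distances of the linear combinations of the numbers `x j` from the integers -/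
def DioL {r : ℕ} (τ : ℕ) (x : Fin r → ℝ) : Prop := ∀ H : ℕ, 2 ≤ H → ∀ l : Fin r → ℤ, l ≠ 0 → (∀ j, (l j).natAbs ≤ H) →
  ∀ p : ℤ, 1 / (H : ℝ) ^ τ ≤ |∑ j, (l j : ℝ) * x j - p|

lemma DioL.low {r τ : ℕ} {x : Fin r → ℝ} (hx : DioL τ x) (l : Fin r → ℤ) (hl : l ≠ 0) (A : ℕ) (hA : ∀ j, (l j).natAbs ≤ A) (hA1 : 1 ≤ A) :
    LowT τ A (∑ j, (l j : ℝ) * x j) := by
  intro q hq p
  have h1 := hx (q * A) (by
    calc 2 = 2 * 1 := rfl
      _ ≤ q * A := Nat.mul_le_mul hq hA1) (fun j => q * l j) (by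
    intro h
    apply hl
    ext j
    have h2 := congrFun h j
    have h3 : (q : ℤ) * l j = 0 := h2
    rcases mul_eq_zero.1 h3 with h4 | h4
    · exfalso
      have : q = 0 := by exact_mod_cast h4
      omega
    · exact h4) (by
    intro j
    rw [Int.natAbs_mul, Int.natAbs_natCast]
    exact Nat.mul_le_mul_left _ (hA j)) p
  have h2 : ∑ j, (((q : ℤ) * l j : ℤ) : ℝ) * x j = q * ∑ j, (l j : ℝ) * x j := by
    rw [mul_sum]
    apply sum_congr rfl
    intro j _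
    push_cast
    ring
  rw [h2] at h1
  exact h1

end Pool.Agent.Y844.DM
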