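import Pool.Agent.TH872.An2
import Pool.Agent.TH872.Mir4
import Pool.Agent.Y844.DM.Far

set_option autoImplicit false

/-! Families of random integers with a characteristic function which decays with the number of the far places. -/

namespace Pool.Agent.Y844.DM
open Finset
open Pool.Agent.H807R2.Dav
open Pool.Agent.W93.DG
open Pool.Agent.W93.RD
open Pool.Agent.TH872.Mir (Far farCount)

/-- decay of the characteristic function of the random integer `X` with the number of the far places -/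
def Dec (b F k C₀ : ℕ) (γ η : ℝ) {ι : Type} (Ω : Finset ι) (p : ι → ℝ) (X : ι → ℤ) : Prop :=
  ∀ (θ : ℝ) (N : ℕ), (N : ℝ) ≤ η * k → C₀ * (N + 1) ≤ farCount b F k θ →
    ‖∑ ω ∈ Ω, ((p ω : ℝ) : ℂ) * ee ((X ω : ℝ) * θ)‖ ≤ γ ^ N

/-- a fixed summand does not matter -/
lemma Dec.add {b F k C₀ : ℕ} {γ η : ℝ} {ι : Type} {Ω : Finset ι} {p : ι → ℝ} {X : ι → ℤ} (h : Dec b F k C₀ γ η Ω p X) (c : ℤ) :
    Dec b F k C₀ γ η Ω p (fun ω => X ω + c) := by
  intro θ N hN hF
  have h1 := h θ N hN hF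
  have h2 : ∑ ω ∈ Ω, ((p ω : ℝ) : ℂ) * ee (((X ω + c : ℤ) : ℝ) * θ) = ee (c * θ) * ∑ ω ∈ Ω, ((p ω : ℝ) : ℂ) * ee ((X ω : ℝ) * θ) := by
    rw [mul_sum]
    apply sum_congr rfl
    intro ω _
    rw [mul_left_comm, ← ee_add]
    congr 2
    push_cast
    ring
  rw [h2, norm_mul, norm_ee, one_mul]
  exact h1

section Mirror
open Pool.Agent.TH872.Mir

/-- mirror-dependent digits -/
theorem dec_mirr (b : ℕ) (hb : 2 ≤ b) (η : ℝ) (hη : 0 < η) (s : ℕ) : ∃ γ : ℝ, 0 ≤ γ ∧ γ < 1 ∧ ∀ m : ℕ, ∀ w : ℕ → ℕ × ℕ → ℝ, Mirr b m η w →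
    Dec b (b ^ 4).factorial (2 * m + s) (4 + s) γ 1 (Gs b m) (pw w) (fun g => (val b (2 * m + s) g : ℕ)) := by
  classical
  obtain ⟨γ, hγ⟩ : ∃ γ, γ = 1 - 4 * (η / (b : ℝ) ^ 4) * (1 / (2 * ((b ^ 4).factorial : ℝ) * (b : ℝ) ^ 4)) ^ 2 := ⟨_, rfl⟩
  have hbr : (2 : ℝ) ≤ b := by exact_mod_cast hb
  have hb0 : (0 : ℝ) < b := by linarith
  have hF0 : (0 : ℝ) < ((b ^ 4).factorial : ℝ) := by exact_mod_cast (b ^ 4).factorial_pos
  have hγ1 : γ < 1 := by
    rw [hγ]
    have : 0 < 4 * (η / (b : ℝ) ^ 4) * (1 / (2 * ((b ^ 4).factorial : ℝ) * (b : ℝ) ^ 4)) ^ 2 := by positivity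
    linarith
  refine ⟨max γ 0, le_max_right _ _, max_lt hγ1 one_pos, fun m w hw θ N _ hN => ?_⟩
  have hNF : 4 * N + (4 + s) ≤ farCount b (b ^ 4).factorial (2 * m + s) θ := by
    refine le_trans ?_ hN
    nlinarith
  simp only [Int.cast_natCast]
  by_cases hγ0 : 0 ≤ γ
  · rw [max_eq_left hγ0]
    exact char_decay b m s hb η hη w hw θ N hNF γ hγ hγ0
  · -- then there are no admissible weights with `m ≥ 2`
    exfalso
    push Not at hγ0
    have hm : 1 < m := by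
      by_contra hcon
      have h1 : farCount b (b ^ 4).factorial (2 * m + s) θ ≤ 2 * m + s := by
        unfold farCount
        refine (card_filter_le _ _).trans ?_
        rw [card_range]
      omega
    have hη1 := eta_le hw hm
    have h2 : 1 ≤ (2 * ((b ^ 4).factorial : ℝ) * (b : ℝ) ^ 4) := by
      have c1 : (1 : ℝ) ≤ ((b ^ 4).factorial : ℝ) := by exact_mod_cast (b ^ 4).factorial_pos
      have c2 : (1 : ℝ) ≤ (b : ℝ) ^ 4 := one_le_pow₀ (by linarith)
      nlinarith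
    have h3 : (1 / (2 * ((b ^ 4).factorial : ℝ) * (b : ℝ) ^ 4)) ^ 2 ≤ 1 := by
      apply pow_le_one₀ (by positivity)
      rw [div_le_one (by linarith)]
      exact h2
    have h4 : 4 * (η / (b : ℝ) ^ 4) ≤ 1 := by
      have c2 : (16 : ℝ) ≤ (b : ℝ) ^ 4 := by
        calc (16 : ℝ) = 2 ^ 4 := by norm_num
          _ ≤ (b : ℝ) ^ 4 := pow_le_pow_left₀ (by norm_num) hbr 4
      rw [mul_div_assoc', div_le_one (by linarith)]
      linarith
    have h5 : 4 * (η / (b : ℝ) ^ 4) * (1 / (2 * ((b ^ 4).factorial : ℝ) * (b : ℝ) ^ 4)) ^ 2 ≤ 1 * 1 :=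
      mul_le_mul h4 h3 (by positivity) (by norm_num)
    rw [hγ] at hγ0
    linarith

end Mirror

section Perm
open Pool.Agent.TH872.An

/-- permutations of the digits of an integer -/
theorem dec_perm (b : ℕ) (hb : 2 ≤ b) (η : ℝ) (hη : 0 < η) : ∃ γ : ℝ, 0 ≤ γ ∧ γ < 1 ∧ ∀ k : ℕ, ∀ d : Fin k → ℕ, Spread b k η d →
    Dec b (GG b) k 2 γ (η / 4) (univ : Finset (Equiv.Perm (Fin k))) (fun _ => 1 / (k.factorial : ℝ)) (fun σ => (V b d σ : ℕ)) := by
  classical
  have hbr : (2 : ℝ) ≤ b := by exact_mod_cast hb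
  have hb0 : (0 : ℝ) < b := by linarith
  have hG0 : (0 : ℝ) < GG b := by exact_mod_cast GG_pos b hb
  have hG1 : (1 : ℝ) ≤ GG b := by exact_mod_cast GG_pos b hb
  obtain ⟨δ, hδ⟩ : ∃ δ, δ = 1 / ((b : ℝ) ^ 2 * GG b) := ⟨_, rfl⟩
  have hδ0 : 0 < δ := by rw [hδ]; positivity
  have hδ1 : δ ≤ 1 / 2 := by
    rw [hδ]
    apply div_le_div_of_nonneg_left (by norm_num) (by norm_num)
    nlinarith
  obtain ⟨γ, hγ⟩ : ∃ γ, γ = 1 - 2 * δ ^ 2 * (η / 2) := ⟨_, rfl⟩
  have hγ1 : γ < 1 := by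
    rw [hγ]
    have : 0 < 2 * δ ^ 2 * (η / 2) := by positivity
    linarith
  refine ⟨max γ 0, le_max_right _ _, max_lt hγ1 one_pos, fun k d hd θ N hNk hfc => ?_⟩
  simp only [Int.cast_natCast]
  have hk0 : 0 < k := by
    by_contra hcon
    have h0 : k = 0 := by omega
    have h1 : farCount b (GG b) k θ ≤ k := by
      unfold farCount
      refine (card_filter_le _ _).trans ?_
      rw [card_range]
    omega
  have hη1 := eta_le hd hk0
  have hγ0 : 0 ≤ γ := by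
    rw [hγ]
    have h1 : δ ^ 2 ≤ (1 / 2) ^ 2 := pow_le_pow_left₀ hδ0.le hδ1 2
    nlinarith [sq_nonneg δ]
  rw [max_eq_left hγ0]
  obtain ⟨T, hT⟩ : ∃ T : Finset ℕ, T = (range (k - 1)).filter (fun j => Far (1 / (b : ℝ) ^ 2) ((GG b : ℝ) * ((b : ℝ) ^ j * θ))) := ⟨_, rfl⟩
  have hTc : 2 * N + 1 ≤ T.card := by
    have h2 : (range k).filter (fun j => Far (1 / (b : ℝ) ^ 2) ((GG b : ℝ) * ((b : ℝ) ^ j * θ))) ⊆ insert (k - 1) T := by
      intro j hj
      rw [mem_filter, mem_range] at hj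
      rw [mem_insert, hT, mem_filter, mem_range]
      by_cases c : j = k - 1
      · left; exact c
      · right; exact ⟨by omega, hj.2⟩
    have h3 := (card_le_card h2).trans (card_insert_le _ _)
    unfold farCount at hfc
    omega
  have hpar : ∃ r : ℕ, N ≤ (T.filter (fun j => j % 2 = r)).card := by
    have h2 := card_filter_add_card_filter_not (s := T) (fun j => j % 2 = 0)
    by_cases c : N ≤ (T.filter (fun j => j % 2 = 0)).card
    · exact ⟨0, c⟩
    · refine ⟨1, ?_⟩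
      have h3 : (T.filter (fun j => j % 2 = 1)).card = (T.filter (fun j => ¬ j % 2 = 0)).card := by
        congr 1
        apply filter_congr
        intro j _
        omega
      omega
  obtain ⟨r, hr⟩ := hpar
  obtain ⟨J, hJs, hJc⟩ := exists_subset_card_eq hr
  have hJT : ∀ j ∈ J, j + 1 < k ∧ j % 2 = r ∧ Far (1 / (b : ℝ) ^ 2) ((GG b : ℝ) * ((b : ℝ) ^ j * θ)) := by
    intro j hj
    have h2 := hJs hj
    rw [mem_filter, hT, mem_filter, mem_range] at h2
    exact ⟨by omega, h2.2, h2.1.2⟩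
  obtain ⟨x, hx⟩ : ∃ x : ℕ → Fin k, ∀ j, j + 1 < k → ((x j : Fin k) : ℕ) = j + 1 := by
    refine ⟨fun j => if h : j + 1 < k then ⟨j + 1, h⟩ else ⟨0, hk0⟩, fun j hj => ?_⟩
    simp only [hj, dif_pos]
  obtain ⟨y, hy⟩ : ∃ y : ℕ → Fin k, ∀ j, j + 1 < k → ((y j : Fin k) : ℕ) = j := by
    refine ⟨fun j => if h : j + 1 < k then ⟨j, by omega⟩ else ⟨0, hk0⟩, fun j hj => ?_⟩
    simp only [hj, dif_pos]
  have hdec := char_small b hd hη.le θ δ hδ0.le hδ1 x y J (by
      intro i hi j hj hcon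
      have a1 := hJT i hi
      have a2 := hJT j hj
      have a3 := congrArg Fin.val hcon
      rw [hx i a1.1, hy j a2.1] at a3
      omega) (by
      intro i hi j hj hcon
      have a1 := hJT i hi
      have a2 := hJT j hj
      have a3 := congrArg Fin.val hcon
      rw [hx i a1.1, hx j a2.1] at a3
      omega) (by
      intro i hi j hj hcon
      have a1 := hJT i hi
      have a2 := hJT j hj
      have a3 := congrArg Fin.val hcon
      rw [hy i a1.1, hy j a2.1] at a3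
      omega) (by
      rw [hJc]
      linarith) (by
      intro j hj D hD0 hD
      have a1 := hJT j hj
      rw [hx j a1.1, hy j a1.1, hδ]
      exact far_pair b hb j θ a1.2.2 D hD0 hD)
  rw [← hγ, hJc] at hdec
  exact hdec

end Perm

end Pool.Agent.Y844.DM
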