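import Pool.Agent.TH629.ExpAlg2
import Pool.Agent.Y844.DM.Far

set_option autoImplicit false

/-! Measures of linear independence in the form used for the far places. -/

namespace Pool.Agent.Y844.DM
open Finset
open Pool.Agent.W472.AC (Meas)

lemma dioL_of_meas {r : ℕ} (x : Fin r → ℝ) (W c : ℝ) (hW : 0 ≤ W) (hc : 0 < c) (h : Meas (Fin.cons 1 x : Fin (r + 1) → ℝ) W c) :
    ∃ τ : ℕ, DioL τ x := by
  obtain ⟨S, hS⟩ : ∃ S : ℝ, S = 1 + ∑ j, |x j| := ⟨_, rfl⟩
  have hS1 : 1 ≤ S := by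
    rw [hS]
    have : 0 ≤ ∑ j, |x j| := sum_nonneg fun _ _ => abs_nonneg _
    linarith
  obtain ⟨N, hN⟩ := exists_nat_ge W
  obtain ⟨M, hM⟩ := pow_unbounded_of_one_lt ((2 * S) ^ W / c) (by norm_num : (1 : ℝ) < 2)
  refine ⟨N + M, fun H hH l hl hlH p => ?_⟩
  have hHR : (2 : ℝ) ≤ H := by exact_mod_cast hH
  have hH0 : (0 : ℝ) < H := by linarith
  obtain ⟨Λ, hΛ⟩ : ∃ Λ : ℝ, Λ = ∑ j, (l j : ℝ) * x j - p := ⟨_, rfl⟩
  rw [← hΛ]
  have hpow1 : (1 : ℝ) ≤ (H : ℝ) ^ (N + M) := one_le_pow₀ (by linarith)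
  rcases le_or_gt 1 |Λ| with h1 | h1
  · refine le_trans ?_ h1
    rw [div_le_one (by linarith)]
    exact hpow1
  · have hlR : ∀ j, |(l j : ℝ)| ≤ H := by
      intro j
      have h2 := hlH j
      have h3 : ((l j).natAbs : ℝ) ≤ H := by exact_mod_cast h2
      rw [Nat.cast_natAbs] at h3
      push_cast at h3
      exact h3
    have hsum : |∑ j, (l j : ℝ) * x j| ≤ H * (S - 1) := by
      refine (abs_sum_le_sum_abs _ _).trans ?_
      rw [hS]
      have h2 : ∀ j ∈ (univ : Finset (Fin r)), |(l j : ℝ) * x j| ≤ H * |x j| := by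
        intro j _
        rw [abs_mul]
        exact mul_le_mul_of_nonneg_right (hlR j) (abs_nonneg _)
      refine (sum_le_sum h2).trans (le_of_eq ?_)
      rw [← mul_sum]
      ring
    have hp : |(p : ℝ)| ≤ 2 * S * H := by
      have h2 : (p : ℝ) = ∑ j, (l j : ℝ) * x j - Λ := by rw [hΛ]; ring
      rw [h2]
      refine (abs_sub _ _).trans ?_
      nlinarith
    have h3 := h (Fin.cons (-p) l) (by
      intro h0
      apply hl
      ext j
      have := congrFun h0 j.succ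
      simpa using this) (2 * S * H) (by nlinarith) (by
      intro j
      refine Fin.cases ?_ (fun j => ?_) j
      · simpa using hp
      · simp only [Fin.cons_succ]
        refine (hlR j).trans ?_
        nlinarith)
    have h4 : ∑ j : Fin (r + 1), (((Fin.cons (-p) l : Fin (r + 1) → ℤ) j : ℤ) : ℝ) * (Fin.cons 1 x : Fin (r + 1) → ℝ) j = Λ := by
      rw [Fin.sum_univ_succ]
      simp only [Fin.cons_zero, Fin.cons_succ]
      rw [hΛ]
      push_cast
      ring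
    rw [h4, Real.mul_rpow (by linarith) hH0.le] at h3
    have h5 : (H : ℝ) ^ W ≤ (H : ℝ) ^ N := by
      rw [← Real.rpow_natCast]
      exact Real.rpow_le_rpow_of_exponent_le (by linarith) hN
    have hSW : 0 < (2 * S) ^ W := by positivity
    have h6 : (2 * S) ^ W / c < (H : ℝ) ^ M := hM.trans_le (pow_le_pow_left₀ (by norm_num) hHR M)
    rw [div_lt_iff₀ hc] at h6
    rw [div_le_iff₀ (by positivity), pow_add]
    have hΛ0 : 0 ≤ |Λ| := abs_nonneg _
    -- c ≤ (2S)^W H^W |Λ| ≤ H^M c H^N |Λ|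
    have h7 : c ≤ ((H : ℝ) ^ M * c) * (H : ℝ) ^ N * |Λ| := by
      refine h3.trans ?_
      apply mul_le_mul_of_nonneg_right _ hΛ0
      exact mul_le_mul h6.le h5 (by positivity) (by positivity)
    have h8 : c * 1 ≤ c * (|Λ| * ((H : ℝ) ^ N * (H : ℝ) ^ M)) := by
      calc c * 1 = c := mul_one c
        _ ≤ _ := h7
        _ = _ := by ring
    exact le_of_mul_le_mul_left h8 hc

/-- numbers `β e ^ w` with `β` in a real number field -/
theorem dioL_exp (F : IntermediateField ℚ ℝ) [FiniteDimensional ℚ F] {r : ℕ} (β : Fin r → F) (w : Fin r → ℕ)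
    (hli : LinearIndependent ℚ (Fin.cons 1 (fun j => (β j : ℝ) * Real.exp (w j)) : Fin (r + 1) → ℝ)) :
    ∃ τ : ℕ, DioL τ (fun j => (β j : ℝ) * Real.exp (w j)) := by
  have e1 : (fun j : Fin (r + 1) => (((Fin.cons 1 β : Fin (r + 1) → F) j : F) : ℝ) * Real.exp (((Fin.cons 0 w : Fin (r + 1) → ℕ) j : ℕ) : ℝ)) =
      (Fin.cons 1 (fun j => (β j : ℝ) * Real.exp (w j)) : Fin (r + 1) → ℝ) := by
    ext j
    refine Fin.cases ?_ (fun j => ?_) j
    · simp
    · simp
  obtain ⟨R, hR⟩ : ∃ R, ∀ j, (Fin.cons 0 w : Fin (r + 1) → ℕ) j ≤ R := by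
    refine ⟨∑ j, (Fin.cons 0 w : Fin (r + 1) → ℕ) j, fun j => ?_⟩
    exact single_le_sum (f := (Fin.cons 0 w : Fin (r + 1) → ℕ)) (fun _ _ => Nat.zero_le _) (mem_univ j)
  obtain ⟨c, hc, h⟩ := Pool.Agent.TH629.ExpAlg.meas_exp_field F (Fin.cons 1 β) (Fin.cons 0 w) R hR (by rw [e1]; exact hli) 1 one_pos
  rw [e1] at h
  refine dioL_of_meas _ _ c ?_ hc h
  have h1 : (1 : ℝ) ≤ (Module.finrank ℚ F : ℝ) := by exact_mod_cast Module.finrank_pos
  have h2 : (0 : ℝ) ≤ (R : ℝ) := Nat.cast_nonneg _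
  have h3 : 0 ≤ (Module.finrank ℚ F : ℝ) * (Module.finrank ℚ F * R + 1) := by positivity
  linarith

end Pool.Agent.Y844.DM
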