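import Pool.Agent.Y844.DM.TestsG
import Pool.Agent.Y844.DM.Pal

set_option autoImplicit false

/-! Joint digit tests for the multiples of several numbers by palindromes and by random integers with
mirror-dependent digits. -/

namespace Pool.Agent.Y844.DM
open Finset MeasureTheory
open Pool.Agent.TH872.Mir
open Pool.Agent.TH872.Tr (num value Prob Pairs)
open Pool.Agent.Y933.KD (Leb Ev)

open Classical in
lemma mirr_testsG (b : ℕ) (hb : 2 ≤ b) (η : ℝ) (hη : 0 < η) (B K : ℕ) (ε : ℝ) (hε : 0 < ε) (hε1 : ε < 1) (τ : ℕ) (s : ℕ) :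
    ∃ δ : ℝ, 0 < δ ∧ ∃ C : ℝ, ∀ m : ℕ, 1 ≤ 2 * m + s → ∀ w : ℕ → ℕ × ℕ → ℝ, Mirr b m η w → ∀ z : ℕ, ∀ (r : ℕ) (x : Fin r → ℝ), DioL τ x → ∀ (κ : ℤ) (y : Fin r → ℝ)
      (q n : Fin K → ℕ) (J : Fin K → Fin r) (u v : Fin K → ℝ), Adm B K ε (2 * m + s) κ q n u v →
      |∑ g ∈ Gs b m, (if (fun j => (κ : ℝ) * ((val b (2 * m + s) g + s * z * b ^ m : ℕ) : ℝ) * x j + y j) ∈ EvG q n J u v then pw w g else 0) -
        (LebG r).real (EvG q n J u v)| ≤ C * ((2 * m + s : ℕ) : ℝ) ^ (-δ) := by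
  obtain ⟨γ, hγ0, hγ1, hdec⟩ := dec_mirr b hb η hη s
  have hF : 2 ≤ (b ^ 4).factorial := by
    have h1 : 2 ≤ b ^ 4 := by
      calc 2 ≤ b := hb
        _ = b ^ 1 := (pow_one b).symm
        _ ≤ b ^ 4 := Nat.pow_le_pow_right (by omega) (by omega)
    exact h1.trans (Nat.self_le_factorial _)
  obtain ⟨δ, hδ, C, h⟩ := testsG b (b ^ 4).factorial (4 + s) τ hb hF (by omega) γ 1 hγ0 hγ1 one_pos B K ε hε hε1
  refine ⟨δ, hδ, C, fun m hm w hw z r x hx κ y q n J u v hadm => ?_⟩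
  have h1 := h (2 * m + s) hm _ (Gs b m) (pw w) (fun g => (val b (2 * m + s) g : ℕ) + ((s * z * b ^ m : ℕ) : ℤ))
    (fun g _ => pw_nonneg hw g) (pw_sum hw) ((hdec m w hw).add _) r x hx κ y hadm.mult hadm.size q n J hadm.base hadm.place u v
    hadm.left hadm.right
  have h2 : ∀ g : Fin m → ℕ × ℕ, (((val b (2 * m + s) g : ℕ) + ((s * z * b ^ m : ℕ) : ℤ) : ℤ) : ℝ) =
      ((val b (2 * m + s) g + s * z * b ^ m : ℕ) : ℝ) := by
    intro g
    push_cast
    ring
  simp only [h2] at h1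
  exact h1

open Classical in
/-- **Digit tests for the multiples by palindromes and by integers with mirror-dependent digits** -/
theorem pal_testsG (b : ℕ) (hb : 2 ≤ b) (η : ℝ) (hη : 0 < η) (B K : ℕ) (ε : ℝ) (hε : 0 < ε) (hε1 : ε < 1) (τ : ℕ) :
    ∃ δ : ℝ, 0 < δ ∧ ∃ C : ℝ, ∀ k : ℕ, 1 ≤ k → ∀ (r : ℕ) (x : Fin r → ℝ), DioL τ x → ∀ (κ : ℤ) (y : Fin r → ℝ) (q n : Fin K → ℕ) (J : Fin K → Fin r) (u v : Fin K → ℝ), Adm B K ε k κ q n u v →
      (∀ (w : ℕ → ℕ × ℕ → ℝ) (t : ℕ → ℝ), Pairs b k η w → (∀ a, 0 ≤ t a) → ∑ a ∈ range b, t a = 1 →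
        |Prob b k w t (fun d z => (fun j => (value b k κ 0 d z : ℝ) * x j + y j) ∈ EvG q n J u v) - (LebG r).real (EvG q n J u v)| ≤ C * (k : ℝ) ^ (-δ)) ∧
      |(num b k (fun a : ℕ => (fun j => ((κ * (a : ℤ) : ℤ) : ℝ) * x j + y j) ∈ EvG q n J u v) : ℝ) - num b k (fun _ => True) * (LebG r).real (EvG q n J u v)| ≤
        num b k (fun _ => True) * (C * (k : ℝ) ^ (-δ)) := by
  have hb0 : (0 : ℝ) < b := by exact_mod_cast (by omega : 0 < b)
  obtain ⟨η', hη'⟩ : ∃ η', η' = min η (1 / (b : ℝ) ^ 2) := ⟨_, rfl⟩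
  have hη'0 : 0 < η' := by rw [hη']; exact lt_min hη (by positivity)
  obtain ⟨δ₀, hδ₀, C₀, h0⟩ := mirr_testsG b hb η' hη'0 B K ε hε hε1 τ 0
  obtain ⟨δ₁, hδ₁, C₁, h1⟩ := mirr_testsG b hb η' hη'0 B K ε hε hε1 τ 1
  obtain ⟨δ, hδ⟩ : ∃ δ, δ = min δ₀ δ₁ := ⟨_, rfl⟩
  obtain ⟨C, hC⟩ : ∃ C : ℝ, C = max (max C₀ C₁) 1 := ⟨_, rfl⟩
  have hC1 : 1 ≤ C := by rw [hC]; exact le_max_right _ _
  refine ⟨δ, by rw [hδ]; exact lt_min hδ₀ hδ₁, C, fun k hk r x hx κ y q n J u v hadm => ?_⟩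
  have hk1 : (1 : ℝ) ≤ k := by exact_mod_cast hk
  obtain ⟨m, hm⟩ : ∃ m, m = k / 2 := ⟨_, rfl⟩
  obtain ⟨s, hs⟩ : ∃ s, s = k % 2 := ⟨_, rfl⟩
  have hs1 : s ≤ 1 := by omega
  have hkms : k = 2 * m + s := by omega
  obtain ⟨L, hL⟩ : ∃ L, L = (LebG r).real (EvG q n J u v) := ⟨_, rfl⟩
  have hL0 : 0 ≤ L := by rw [hL]; exact measureReal_nonneg
  have hL1 : L ≤ 1 := by rw [hL]; exact measureReal_le_one
  rw [← hL]
  obtain ⟨ρ, hρ⟩ : ∃ ρ, ρ = C * (k : ℝ) ^ (-δ) := ⟨_, rfl⟩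
  rw [← hρ]
  have hg : ∀ w : ℕ → ℕ × ℕ → ℝ, Mirr b m η' w → ∀ z : ℕ,
      |∑ g ∈ Gs b m, (if (fun j => (κ : ℝ) * ((val b (2 * m + s) g + s * z * b ^ m : ℕ) : ℝ) * x j + y j) ∈ EvG q n J u v then pw w g else 0) - L| ≤ ρ := by
    intro w hw z
    have h4 : s = 0 ∨ s = 1 := by omega
    rw [hρ, hL]
    rcases h4 with h4 | h4
    · rw [h4] at hkms ⊢
      rw [hkms] at hadm hk1 ⊢
      refine (h0 m (by omega) w hw z r x hx κ y q n J u v hadm).trans ?_
      apply mul_le_mul _ _ (by positivity) (by linarith)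
      · rw [hC]; exact (le_max_left _ _).trans (le_max_left _ _)
      · exact Real.rpow_le_rpow_of_exponent_le hk1 (by rw [hδ]; linarith [min_le_left δ₀ δ₁])
    · rw [h4] at hkms ⊢
      rw [hkms] at hadm hk1 ⊢
      refine (h1 m (by omega) w hw z r x hx κ y q n J u v hadm).trans ?_
      apply mul_le_mul _ _ (by positivity) (by linarith)
      · rw [hC]; exact (le_max_right _ _).trans (le_max_left _ _)
      · exact Real.rpow_le_rpow_of_exponent_le hk1 (by rw [hδ]; linarith [min_le_right δ₀ δ₁])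
  constructor
  · intro w t hw ht ht1
    have hmir : Mirr b m η' w := by
      rw [hm]
      exact ⟨hw.nonneg, hw.sum, fun i hi hi' => (by rw [hη']; exact min_le_left _ _ : η' ≤ η).trans (hw.differ i hi hi')⟩
    have hP : Prob b k w t (fun d z => (fun j => (value b k κ 0 d z : ℝ) * x j + y j) ∈ EvG q n J u v) =
        ∑ z ∈ range b, t z * ∑ g ∈ Gs b m, (if (fun j => (κ : ℝ) * ((val b (2 * m + s) g + s * z * b ^ m : ℕ) : ℝ) * x j + y j) ∈ EvG q n J u v
        then pw w g else 0) := by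
      unfold Prob
      rw [sum_comm]
      subst hm hs
      apply sum_congr rfl
      intro z _
      rw [mul_sum]
      apply sum_congr rfl
      intro d _
      rw [← hkms]
      have e1 : ((value b k κ 0 d z : ℤ) : ℝ) = (κ : ℝ) * ((val b k d + k % 2 * z * b ^ (k / 2) : ℕ) : ℝ) := by
        have e2 : value b k κ 0 d z = κ * ((val b k d + k % 2 * z * b ^ (k / 2) : ℕ) : ℤ) := by
          unfold value Pool.Agent.TH872.Mir.val
          rw [zero_add]
        rw [e2, Int.cast_mul, Int.cast_natCast]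
      show (if (fun j => ((value b k κ 0 d z : ℤ) : ℝ) * x j + y j) ∈ EvG q n J u v then _ else (0 : ℝ)) = _
      rw [e1]
      unfold pw
      split_ifs
      · ring
      · ring
    rw [hP]
    have h5 : ∑ z ∈ range b, t z * ∑ g ∈ Gs b m, (if (fun j => (κ : ℝ) * ((val b (2 * m + s) g + s * z * b ^ m : ℕ) : ℝ) * x j + y j) ∈ EvG q n J u v
        then pw w g else 0) - L = ∑ z ∈ range b, t z * (∑ g ∈ Gs b m, (if (fun j => (κ : ℝ) * ((val b (2 * m + s) g + s * z * b ^ m : ℕ) : ℝ) * x j + y j) ∈ EvG q n J u v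
        then pw w g else 0) - L) := by
      simp only [mul_sub]
      rw [sum_sub_distrib, ← sum_mul, ht1, one_mul]
    rw [h5]
    refine (abs_sum_le_sum_abs _ _).trans ?_
    calc ∑ z ∈ range b, |t z * (∑ g ∈ Gs b m, (if (fun j => (κ : ℝ) * ((val b (2 * m + s) g + s * z * b ^ m : ℕ) : ℝ) * x j + y j) ∈ EvG q n J u v
        then pw w g else 0) - L)| ≤ ∑ z ∈ range b, t z * ρ := by
          apply sum_le_sum
          intro z _
          rw [abs_mul, abs_of_nonneg (ht z)]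
          exact mul_le_mul_of_nonneg_left (hg w hmir z) (ht z)
      _ = ρ := by rw [← sum_mul, ht1, one_mul]
  · have e1 : ∀ E : ℕ → Prop, num b k E = ((Pals b (2 * m + s)).filter E).card := by
      intro E
      unfold num Pals
      rw [← hkms, filter_filter]
      rfl
    obtain ⟨T, hT⟩ : ∃ T : ℝ, T = (num b k (fun _ => True) : ℝ) := ⟨_, rfl⟩
    rw [← hT]
    have hT0 : 0 ≤ T := by rw [hT]; exact Nat.cast_nonneg _
    have hTc : T = ((Pals b (2 * m + s)).card : ℝ) := by rw [hT, e1, filter_true]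
    have hle : (num b k (fun a : ℕ => (fun j => ((κ * (a : ℤ) : ℤ) : ℝ) * x j + y j) ∈ EvG q n J u v) : ℝ) ≤ T := by
      rw [e1, hTc]
      exact_mod_cast card_filter_le _ _
    rcases Nat.lt_or_ge k 2 with hk2 | hk2
    · -- one digit
      have hkone : k = 1 := by omega
      have hρ1 : 1 ≤ ρ := by rw [hρ, hkone]; simp; exact hC1
      have h6 : (0 : ℝ) ≤ (num b k (fun a : ℕ => (fun j => ((κ * (a : ℤ) : ℤ) : ℝ) * x j + y j) ∈ EvG q n J u v) : ℝ) := Nat.cast_nonneg _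
      have h7 : T * L ≤ T := by nlinarith
      have h8 : 0 ≤ T * L := mul_nonneg hT0 hL0
      have h9 : T ≤ T * ρ := by nlinarith
      rw [abs_le]
      constructor <;> linarith
    · have hw0 : Mirr b m η' (w0 b) := by
        have h5 := w0_mirr b m hb
        exact ⟨h5.nonneg, h5.sum, fun i hi hi' => (by rw [hη']; exact min_le_right _ _ : η' ≤ 1 / (b : ℝ) ^ 2).trans (h5.mir i hi hi')⟩
      have hρ0 : 0 ≤ ρ := (abs_nonneg _).trans (hg _ hw0 0)
      have hc : ∀ a : ℕ, (fun j => ((κ * (a : ℤ) : ℤ) : ℝ) * x j + y j) = (fun j => (κ : ℝ) * (a : ℝ) * x j + y j) := by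
        intro a; ext j; push_cast; ring
      have hup := pals_of_prob b m s hb (by omega) hs1 (fun a : ℕ => (fun j => ((κ * (a : ℤ) : ℤ) : ℝ) * x j + y j) ∈ EvG q n J u v) (L + ρ) (by linarith) (by
        intro z _
        simp only [hc]
        have := hg _ hw0 z
        rw [abs_le] at this
        linarith [this.2])
      have hlo := pals_of_prob b m s hb (by omega) hs1 (fun a : ℕ => ¬ (fun j => ((κ * (a : ℤ) : ℤ) : ℝ) * x j + y j) ∈ EvG q n J u v) (1 - L + ρ) (by linarith) (by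
        intro z _
        simp only [hc]
        have h5 := hg _ hw0 z
        rw [abs_le] at h5
        have h6 : ∑ g ∈ Gs b m, (if ¬ (fun j => (κ : ℝ) * ((val b (2 * m + s) g + s * z * b ^ m : ℕ) : ℝ) * x j + y j) ∈ EvG q n J u v then pw (w0 b) g else 0) =
            1 - ∑ g ∈ Gs b m, (if (fun j => (κ : ℝ) * ((val b (2 * m + s) g + s * z * b ^ m : ℕ) : ℝ) * x j + y j) ∈ EvG q n J u v then pw (w0 b) g else 0) := by
          rw [← pw_sum hw0, ← sum_sub_distrib]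
          apply sum_congr rfl
          intro g _
          by_cases c : (fun j => (κ : ℝ) * ((val b (2 * m + s) g + s * z * b ^ m : ℕ) : ℝ) * x j + y j) ∈ EvG q n J u v
          · rw [if_pos c, if_neg (not_not_intro c), sub_self]
          · rw [if_neg c, if_pos c, sub_zero]
        rw [h6]
        linarith [h5.1])
      have hcnt := card_filter_add_card_filter_not (s := Pals b (2 * m + s)) (fun a : ℕ => (fun j => ((κ * (a : ℤ) : ℤ) : ℝ) * x j + y j) ∈ EvG q n J u v)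
      have hcnt' : (((Pals b (2 * m + s)).filter (fun a : ℕ => (fun j => ((κ * (a : ℤ) : ℤ) : ℝ) * x j + y j) ∈ EvG q n J u v)).card : ℝ) +
          (((Pals b (2 * m + s)).filter (fun a : ℕ => ¬ (fun j => ((κ * (a : ℤ) : ℤ) : ℝ) * x j + y j) ∈ EvG q n J u v)).card : ℝ) = T := by
        rw [hTc]
        exact_mod_cast hcnt
      rw [e1, abs_le]
      rw [← hTc] at hup hlo
      have hlo' : (((Pals b (2 * m + s)).filter (fun a : ℕ => ¬ (fun j => ((κ * (a : ℤ) : ℤ) : ℝ) * x j + y j) ∈ EvG q n J u v)).card : ℝ) ≤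
          T * (1 - L + ρ) := by
        convert hlo
      constructor
      · have : T * (1 - L + ρ) = T - T * L + T * ρ := by ring
        linarith
      · have : T * (L + ρ) = T * L + T * ρ := by ring
        linarith

end Pool.Agent.Y844.DM
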