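import Pool.Agent.Y844.DM.Pal

set_option autoImplicit false

/-! Digit tests for the multiples by rearrangements of digits. -/

namespace Pool.Agent.Y844.DM
open Finset MeasureTheory
open Pool.Agent.TH872.An
open Pool.Agent.Y933.KD (Leb Ev)

open Classical in
/-- **Digit tests for the multiples by the rearrangements of the digits of an integer** -/
theorem perm_tests (b : ℕ) (hb : 2 ≤ b) (η : ℝ) (hη : 0 < η) (B K : ℕ) (ε : ℝ) (hε : 0 < ε) (hε1 : ε < 1) (τ : ℕ) :
    ∃ δ : ℝ, 0 < δ ∧ ∃ C : ℝ, ∀ k : ℕ, 1 ≤ k → ∀ d : Fin k → ℕ, Spread b k η d → ∀ x : ℝ, Dio τ x → ∀ (κ : ℤ) (y : ℝ)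
      (q n : Fin K → ℕ) (u v : Fin K → ℝ), Adm B K ε k κ q n u v →
      |((univ.filter fun σ : Equiv.Perm (Fin k) => (κ : ℝ) * (V b d σ : ℝ) * x + y ∈ Ev q n u v).card : ℝ) / (k.factorial : ℝ) -
        Leb.real (Ev q n u v)| ≤ C * (k : ℝ) ^ (-δ) := by
  obtain ⟨γ, hγ0, hγ1, hdec⟩ := dec_perm b hb η hη
  have hF : 2 ≤ GG b := by
    unfold GG
    have h1 : 2 ≤ b.factorial := by
      calc 2 = (2 : ℕ).factorial := rfl
        _ ≤ b.factorial := Nat.factorial_le hb
    calc 2 = 1 * 2 := rfl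
      _ ≤ (b - 1) * b.factorial := Nat.mul_le_mul (by omega) h1
  obtain ⟨δ, hδ, C, h⟩ := tests1 b (GG b) 2 τ hb hF (by omega) γ (η / 4) hγ0 hγ1 (by linarith) B K ε hε hε1
  refine ⟨δ, hδ, C, fun k hk d hd x hx κ y q n u v hadm => ?_⟩
  have hfac : (0 : ℝ) < (k.factorial : ℝ) := by exact_mod_cast k.factorial_pos
  have h1 := h k hk _ (univ : Finset (Equiv.Perm (Fin k))) (fun _ => 1 / (k.factorial : ℝ)) (fun σ => (V b d σ : ℕ))
    (fun _ _ => by positivity) (by
      rw [sum_const, card_univ, Fintype.card_perm, Fintype.card_fin, nsmul_eq_mul, mul_one_div, div_self hfac.ne'])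
    (hdec k d hd) x hx κ y hadm.mult hadm.size q n hadm.base hadm.place u v hadm.left hadm.right
  simp only [Int.cast_natCast] at h1
  rw [← sum_filter, sum_const, nsmul_eq_mul, mul_one_div] at h1
  exact h1

end Pool.Agent.Y844.DM
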