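import Pool.Agent.Y933.KD.Power

set_option autoImplicit false

/-! Comparison of two probability measures on `ℝ ^ r` on products of intervals
(the proofs follow `Pool.Agent.Y933.KD.Test` and `Pool.Agent.Y933.KD.Power`, which is the case `r = 1`). -/

namespace Pool.Agent.Y844.DM
open Finset Real MeasureTheory
open Pool.Agent.Y933.KD (e e_sum e_zero e_add norm_e continuous_e TP F D F_nonneg F_expand TP_F ind ind_nonneg ind_le_one measurable_ind
  g g_nonneg g_le_one TP_g w appr prod_diff)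

/-- Fourier coefficients -/
noncomputable def hatG {r : ℕ} (P : Measure (Fin r → ℝ)) (l : Fin r → ℤ) : ℂ := ∫ x, e (∑ j, l j * x j) ∂P

/-- the frequency belonging to the coefficients `h` -/
def fr {k r : ℕ} (q : Fin k → ℤ) (J : Fin k → Fin r) (h : Fin k → ℤ) (j : Fin r) : ℤ := ∑ i, if J i = j then h i * q i else 0

lemma fr_sum {k r : ℕ} (q : Fin k → ℤ) (J : Fin k → Fin r) (h : Fin k → ℤ) (x : Fin r → ℝ) :
    ∑ j, (fr q J h j : ℝ) * x j = ∑ i, (h i : ℝ) * (q i * x (J i)) := by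
  unfold fr
  push_cast
  simp only [sum_mul]
  rw [sum_comm]
  apply sum_congr rfl
  intro i _
  simp only [ite_mul, zero_mul]
  rw [sum_ite_eq, if_pos (mem_univ _)]
  ring

lemma fr_single {k r : ℕ} (q : Fin k → ℤ) (J : Fin k → Fin r) (i : Fin k) (h : ℤ) :
    fr q J (fun j => if j = i then h else 0) = fun j => if j = J i then h * q i else 0 := by
  ext j
  unfold fr
  rw [sum_eq_single i]
  · show (if J i = j then (if i = i then h else 0) * q i else 0) = _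
    rw [if_pos rfl]
    by_cases c : J i = j
    · rw [if_pos c, if_pos c.symm]
    · rw [if_neg c, if_neg (fun h => c h.symm)]
  · intro b _ hb
    show (if J b = j then (if b = i then h else 0) * q b else 0) = 0
    rw [if_neg hb, zero_mul, ite_self]
  · intro hi
    exact absurd (mem_univ i) hi

lemma integrable_eG {r : ℕ} (P : Measure (Fin r → ℝ)) [IsFiniteMeasure P] (l : Fin r → ℝ) : Integrable (fun x => e (∑ j, l j * x j)) P := by
  refine Integrable.of_bound (C := 1) ?_ ?_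
  · exact (continuous_e.comp (by fun_prop)).aestronglyMeasurable
  · exact Filter.Eventually.of_forall fun x => (norm_e _).le

lemma expandG {k H r : ℕ} (f : Fin k → ℝ → ℝ) (hf : ∀ i, TP H (f i)) (q : Fin k → ℤ) (J : Fin k → Fin r) :
    ∃ d : (Fin k → ℤ) → ℂ, (∀ h, ‖d h‖ ≤ 1) ∧ ∀ x : Fin r → ℝ, ((∏ i, f i (q i * x (J i)) : ℝ) : ℂ) =
      ∑ h ∈ Fintype.piFinset (fun _ : Fin k => Finset.Icc (-(H : ℤ)) H),
        d h * e (∑ j, fr q J h j * x j) := by
  choose c hc1 hc2 using hf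
  refine ⟨fun h => ∏ i, c i (h i), fun h => ?_, fun x => ?_⟩
  · rw [norm_prod]
    exact prod_le_one (fun i _ => norm_nonneg _) fun i _ => hc1 i _
  · push_cast
    simp only [hc2]
    rw [prod_univ_sum]
    refine sum_congr rfl fun h _ => ?_
    rw [prod_mul_distrib, ← e_sum, fr_sum]

lemma diff_tpG {k H r : ℕ} (P Q : Measure (Fin r → ℝ)) [IsProbabilityMeasure P] [IsProbabilityMeasure Q]
    (f : Fin k → ℝ → ℝ) (hf : ∀ i, TP H (f i)) (q : Fin k → ℤ) (J : Fin k → Fin r) (Δ : ℝ)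
    (hΔ : ∀ h : Fin k → ℤ, (∀ i, |h i| ≤ H) → ‖hatG P (fr q J h) - hatG Q (fr q J h)‖ ≤ Δ) :
    |∫ x, ∏ i, f i (q i * x (J i)) ∂P - ∫ x, ∏ i, f i (q i * x (J i)) ∂Q| ≤ (2 * H + 1) ^ k * Δ := by
  obtain ⟨d, hd1, hd2⟩ := expandG f hf q J
  have key : ∀ (P : Measure (Fin r → ℝ)) [IsProbabilityMeasure P],
      ((∫ x, ∏ i, f i (q i * x (J i)) ∂P : ℝ) : ℂ) =
      ∑ h ∈ Fintype.piFinset (fun _ : Fin k => Finset.Icc (-(H : ℤ)) H), d h * hatG P (fr q J h) := by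
    intro P _
    rw [← integral_complex_ofReal]
    have h1 : (fun x : Fin r → ℝ => ((∏ i, f i (q i * x (J i)) : ℝ) : ℂ)) = fun x =>
        ∑ h ∈ Fintype.piFinset (fun _ : Fin k => Finset.Icc (-(H : ℤ)) H),
        d h * e (∑ j, fr q J h j * x j) := funext hd2
    rw [h1, integral_finsetSum _ fun h _ => (integrable_eG P _).const_mul _]
    refine sum_congr rfl fun h _ => ?_
    rw [integral_const_mul]
    rfl
  have h2 : (((∫ x, ∏ i, f i (q i * x (J i)) ∂P - ∫ x, ∏ i, f i (q i * x (J i)) ∂Q : ℝ)) : ℂ) =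
      ∑ h ∈ Fintype.piFinset (fun _ : Fin k => Finset.Icc (-(H : ℤ)) H),
        d h * (hatG P (fr q J h) - hatG Q (fr q J h)) := by
    push_cast
    rw [key P, key Q, ← sum_sub_distrib]
    refine sum_congr rfl fun h _ => ?_
    ring
  have h3 : |∫ x, ∏ i, f i (q i * x (J i)) ∂P - ∫ x, ∏ i, f i (q i * x (J i)) ∂Q| =
      ‖(((∫ x, ∏ i, f i (q i * x (J i)) ∂P - ∫ x, ∏ i, f i (q i * x (J i)) ∂Q : ℝ)) : ℂ)‖ := by
    rw [Complex.norm_real, Real.norm_eq_abs]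
  rw [h3, h2]
  have hΔ0 : 0 ≤ Δ := (norm_nonneg _).trans (hΔ 0 (by simp))
  refine (norm_sum_le _ _).trans ?_
  have h4 : ∀ h ∈ Fintype.piFinset (fun _ : Fin k => Finset.Icc (-(H : ℤ)) H),
      ‖d h * (hatG P (fr q J h) - hatG Q (fr q J h))‖ ≤ Δ := by
    intro h hh
    rw [Fintype.mem_piFinset] at hh
    rw [norm_mul]
    calc ‖d h‖ * _ ≤ 1 * Δ := by
          gcongr
          · exact hd1 h
          · exact hΔ h fun i => abs_le.2 (Finset.mem_Icc.1 (hh i))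
      _ = Δ := one_mul _
  refine (sum_le_sum h4).trans ?_
  rw [sum_const, nsmul_eq_mul, Fintype.card_piFinset]
  simp only [Int.card_Icc, prod_const, card_univ, Fintype.card_fin]
  have h5 : ((H : ℤ) + 1 - -(H : ℤ)).toNat = 2 * H + 1 := by omega
  rw [h5]
  push_cast
  exact le_rfl

/-- the frequency with one nonzero coordinate -/
def sg {r : ℕ} (j : Fin r) (l : ℤ) : Fin r → ℤ := fun j' => if j' = j then l else 0

lemma sg_sum {r : ℕ} (j : Fin r) (l : ℤ) (x : Fin r → ℝ) : ∑ j', (sg j l j' : ℝ) * x j' = l * x j := by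
  unfold sg
  rw [sum_eq_single j]
  · rw [if_pos rfl]
  · intro b _ hb
    rw [if_neg hb, Int.cast_zero, zero_mul]
  · intro hj
    exact absurd (mem_univ j) hj

lemma integrable_e1 {r : ℕ} (P : Measure (Fin r → ℝ)) [IsFiniteMeasure P] (a : ℝ) (j : Fin r) : Integrable (fun x => e (a * x j)) P := by
  refine Integrable.of_bound (C := 1) ?_ ?_
  · exact (continuous_e.comp (by fun_prop)).aestronglyMeasurable
  · exact Filter.Eventually.of_forall fun x => (norm_e _).le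

/-- the integral of the Fejer kernel -/
lemma int_FG {K r : ℕ} (hK : 0 < K) (Q : Measure (Fin r → ℝ)) [IsProbabilityMeasure Q] (q : ℤ) (j : Fin r) (u Δ : ℝ)
    (hQ : ∀ h : ℤ, h ≠ 0 → |h| ≤ K → ‖hatG Q (sg j (h * q))‖ ≤ Δ) :
    |∫ x, F K (q * x j - u) ∂Q - 1| ≤ K * Δ := by
  classical
  have hKR : (0 : ℝ) < K := by exact_mod_cast hK
  have hKC : (K : ℂ) ≠ 0 := by exact_mod_cast hK.ne'
  have h1 : ((∫ x, F K (q * x j - u) ∂Q : ℝ) : ℂ) = (1 / K) * ∑ p ∈ range K ×ˢ range K,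
      e (-((((p.1 : ℤ) - (p.2 : ℤ) : ℤ) : ℝ) * u)) * hatG Q (sg j (((p.1 : ℤ) - (p.2 : ℤ)) * q)) := by
    rw [← integral_complex_ofReal]
    simp only [F_expand]
    rw [integral_const_mul, integral_finsetSum]
    · congr 1
      refine sum_congr rfl fun p _ => ?_
      unfold hatG
      rw [← integral_const_mul]
      congr 1
      funext x
      rw [← e_add, sg_sum]
      congr 1
      push_cast
      ring
    · intro p _
      have : (fun x : Fin r → ℝ => e (((p.1 : ℤ) - (p.2 : ℤ) : ℤ) * (q * x j - u))) =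
          fun x => e (-((((p.1 : ℤ) - (p.2 : ℤ) : ℤ) : ℝ) * u)) *
            e (((((p.1 : ℤ) - (p.2 : ℤ) : ℤ) : ℝ) * q) * x j) := by
        funext x
        rw [← e_add]
        congr 1
        ring
      rw [this]
      exact (integrable_e1 Q _ j).const_mul _
  have h0 : hatG Q (sg j 0) = 1 := by
    unfold hatG
    simp only [sg_sum]
    simp [e_zero]
  have h2 : ((∫ x, F K (q * x j - u) ∂Q - 1 : ℝ) : ℂ) = (1 / K) *
      ∑ p ∈ (range K ×ˢ range K).filter (fun p => p.1 ≠ p.2),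
      e (-((((p.1 : ℤ) - (p.2 : ℤ) : ℤ) : ℝ) * u)) * hatG Q (sg j (((p.1 : ℤ) - (p.2 : ℤ)) * q)) := by
    rw [Complex.ofReal_sub, Complex.ofReal_one, h1,
      ← sum_filter_add_sum_filter_not (range K ×ˢ range K) (fun p => p.1 ≠ p.2), mul_add]
    have h3 : ∑ p ∈ (range K ×ˢ range K).filter (fun p => ¬ (p.1 ≠ p.2)),
        e (-((((p.1 : ℤ) - (p.2 : ℤ) : ℤ) : ℝ) * u)) * hatG Q (sg j (((p.1 : ℤ) - (p.2 : ℤ)) * q)) = K := by
      have h4 : ∀ p ∈ (range K ×ˢ range K).filter (fun p => ¬ (p.1 ≠ p.2)),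
          e (-((((p.1 : ℤ) - (p.2 : ℤ) : ℤ) : ℝ) * u)) * hatG Q (sg j (((p.1 : ℤ) - (p.2 : ℤ)) * q)) = 1 := by
        intro p hp
        rw [mem_filter, not_not] at hp
        rw [hp.2, sub_self, zero_mul, h0]
        simp [e_zero]
      rw [sum_congr rfl h4, sum_const, nsmul_eq_mul, mul_one]
      have h5 : ((range K ×ˢ range K).filter (fun p => ¬ (p.1 ≠ p.2))) =
          (range K).image (fun i => (i, i)) := by
        ext p
        simp only [ne_eq, not_not, mem_filter, mem_product, mem_range, mem_image]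
        constructor
        · rintro ⟨⟨h, _⟩, h'⟩
          exact ⟨p.1, h, Prod.ext rfl h'⟩
        · rintro ⟨i, hi, rfl⟩
          exact ⟨⟨hi, hi⟩, rfl⟩
      rw [h5, card_image_of_injective _ (fun i j h => (Prod.mk.inj h).1), card_range]
    rw [h3]
    have h6 : (1 / (K : ℂ)) * K = 1 := by field_simp
    rw [h6]
    ring
  have h3 : |∫ x, F K (q * x j - u) ∂Q - 1| = ‖((∫ x, F K (q * x j - u) ∂Q - 1 : ℝ) : ℂ)‖ := by
    rw [Complex.norm_real, Real.norm_eq_abs]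
  rw [h3, h2, norm_mul]
  have h4 : ‖(1 / (K : ℂ))‖ = 1 / K := by simp
  rw [h4]
  by_cases hne : ((range K ×ˢ range K).filter (fun p => p.1 ≠ p.2)).Nonempty
  · obtain ⟨p0, hp0⟩ := hne
    have hp0' := hp0
    rw [mem_filter, mem_product, mem_range, mem_range] at hp0'
    have hΔ0 : 0 ≤ Δ := (norm_nonneg _).trans (hQ ((p0.1 : ℤ) - p0.2)
      (by intro h; apply hp0'.2; omega) (by rw [abs_le]; omega))
    have h5 : ‖∑ p ∈ (range K ×ˢ range K).filter (fun p => p.1 ≠ p.2),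
        e (-((((p.1 : ℤ) - (p.2 : ℤ) : ℤ) : ℝ) * u)) * hatG Q (sg j (((p.1 : ℤ) - (p.2 : ℤ)) * q))‖ ≤
        K * K * Δ := by
      refine (norm_sum_le _ _).trans ?_
      have h6 : ∀ p ∈ (range K ×ˢ range K).filter (fun p => p.1 ≠ p.2),
          ‖e (-((((p.1 : ℤ) - (p.2 : ℤ) : ℤ) : ℝ) * u)) *
            hatG Q (sg j (((p.1 : ℤ) - (p.2 : ℤ)) * q))‖ ≤ Δ := by
        intro p hp
        rw [mem_filter, mem_product, mem_range, mem_range] at hp
        rw [norm_mul, norm_e, one_mul]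
        exact hQ _ (by intro h; apply hp.2; omega) (by rw [abs_le]; omega)
      refine (sum_le_sum h6).trans ?_
      rw [sum_const, nsmul_eq_mul]
      have h7 : (((range K ×ˢ range K).filter (fun p => p.1 ≠ p.2)).card : ℝ) ≤ K * K := by
        have := card_filter_le (range K ×ˢ range K) (fun p => p.1 ≠ p.2)
        rw [card_product, card_range] at this
        exact_mod_cast this
      gcongr
    calc 1 / (K : ℝ) * _ ≤ 1 / (K : ℝ) * (K * K * Δ) := by gcongr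
      _ = K * Δ := by field_simp
  · rw [not_nonempty_iff_eq_empty] at hne
    rw [hne, sum_empty, norm_zero, mul_zero]
    -- `K = 1` here
    by_contra hcon
    have hK1 : K = 1 := by
      by_contra hK1
      have : ((0 : ℕ), (1 : ℕ)) ∈ (range K ×ˢ range K).filter (fun p => p.1 ≠ p.2) := by
        rw [mem_filter, mem_product, mem_range, mem_range]
        exact ⟨⟨hK, by omega⟩, by simp⟩
      rw [hne] at this
      exact absurd this (Finset.notMem_empty _)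
    subst hK1
    have h5 := hQ 1 one_ne_zero (by simp)
    have := norm_nonneg (hatG Q (sg j (1 * q)))
    apply hcon
    push_cast
    linarith

lemma integrable_FG {r : ℕ} (K : ℕ) (P : Measure (Fin r → ℝ)) [IsFiniteMeasure P] (q : ℤ) (j : Fin r) (u : ℝ) :
    Integrable (fun x => F K (q * x j - u)) P := by
  obtain ⟨c, hc1, hc2⟩ := TP_F (le_refl K) u
  have hc : Continuous (fun x : Fin r → ℝ => F K (q * x j - u)) :=
    (TP_F (le_refl K) u).cont.comp (by fun_prop : Continuous fun x : Fin r → ℝ => (q : ℝ) * x j)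
  refine Integrable.of_bound (C := K) hc.aestronglyMeasurable (Filter.Eventually.of_forall fun x => ?_)
  rw [Real.norm_eq_abs, abs_of_nonneg (F_nonneg _ _)]
  unfold F
  have h1 : ‖D K (q * x j - u)‖ ≤ K := by
    unfold D
    refine (norm_sum_le _ _).trans ?_
    simp [norm_e]
  rcases Nat.eq_zero_or_pos K with rfl | hK
  · simp
  · have hKR : (0 : ℝ) < K := by exact_mod_cast hK
    calc 1 / (K : ℝ) * ‖D K (q * x j - u)‖ ^ 2 ≤ 1 / (K : ℝ) * (K : ℝ) ^ 2 := by gcongr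
      _ = (K : ℝ) := by field_simp

/-- the error of the approximation, for one measure -/
lemma approx_oneG {k K R r : ℕ} (hK : 0 < K) (hR : 0 < R) (P : Measure (Fin r → ℝ)) [IsProbabilityMeasure P]
    (q : Fin k → ℤ) (J : Fin k → Fin r) (u v : Fin k → ℝ) (hu : ∀ i, 0 ≤ u i) (hv : ∀ i, v i ≤ 1) (Δ : ℝ)
    (hP : ∀ i, ∀ h : ℤ, h ≠ 0 → |h| ≤ K → ‖hatG P (sg (J i) (h * q i))‖ ≤ Δ) :
    |∫ x, ∏ i, ind (u i) (v i) (q i * x (J i)) ∂P - ∫ x, ∏ i, g R (u i) (v i) (q i * x (J i)) ∂P| ≤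
      k * ((K : ℝ) ^ 2 / R + π ^ 2 / (2 * K) * (1 + K * Δ)) := by
  have hKR : (0 : ℝ) < K := by exact_mod_cast hK
  have hi1 : Integrable (fun x => ∏ i, ind (u i) (v i) (q i * x (J i))) P := by
    refine Integrable.of_bound (C := 1) ?_ (Filter.Eventually.of_forall fun x => ?_)
    · refine Measurable.aestronglyMeasurable ?_
      exact Finset.measurable_prod _ fun i _ => (measurable_ind _ _).comp (by fun_prop)
    · rw [Real.norm_eq_abs, abs_of_nonneg (prod_nonneg fun i _ => ind_nonneg _ _ _)]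
      exact prod_le_one (fun i _ => ind_nonneg _ _ _) fun i _ => ind_le_one _ _ _
  have hi2 : Integrable (fun x => ∏ i, g R (u i) (v i) (q i * x (J i))) P := by
    refine Integrable.of_bound (C := 1) ?_ (Filter.Eventually.of_forall fun x => ?_)
    · refine Continuous.aestronglyMeasurable ?_
      exact continuous_finsetProd _ fun i _ => (TP_g R (u i) (v i)).cont.comp (by fun_prop)
    · rw [Real.norm_eq_abs, abs_of_nonneg (prod_nonneg fun i _ => g_nonneg _ _ _ _)]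
      exact prod_le_one (fun i _ => g_nonneg _ _ _ _) fun i _ => g_le_one hR _ _ _
  have hiw : ∀ i, Integrable (fun x => w K R (u i) (v i) (q i * x (J i))) P := by
    intro i
    unfold w
    exact (integrable_const _).add
      (((integrable_FG K P (q i) (J i) (u i)).add (integrable_FG K P (q i) (J i) (v i))).const_mul _)
  rw [← integral_sub hi1 hi2]
  have h1 : |∫ x, (∏ i, ind (u i) (v i) (q i * x (J i)) - ∏ i, g R (u i) (v i) (q i * x (J i))) ∂P| ≤
      ∫ x, ∑ i, w K R (u i) (v i) (q i * x (J i)) ∂P := by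
    refine (abs_integral_le_integral_abs).trans ?_
    refine integral_mono (hi1.sub hi2).abs (integrable_finsetSum _ fun i _ => hiw i) fun x => ?_
    refine (prod_diff _ _ _ (fun i _ => ind_nonneg _ _ _) (fun i _ => ind_le_one _ _ _)
      (fun i _ => g_nonneg _ _ _ _) (fun i _ => g_le_one hR _ _ _)).trans ?_
    exact sum_le_sum fun i _ => appr hK hR (hu i) (hv i) _
  refine h1.trans ?_
  rw [integral_finsetSum _ fun i _ => hiw i]
  have h2 : ∀ i ∈ (univ : Finset (Fin k)), ∫ x, w K R (u i) (v i) (q i * x (J i)) ∂P ≤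
      (K : ℝ) ^ 2 / R + π ^ 2 / (2 * K) * (1 + K * Δ) := by
    intro i _
    have h0 : ∫ x, w K R (u i) (v i) (q i * x (J i)) ∂P = (K : ℝ) ^ 2 / R + π ^ 2 / (4 * K) *
        (∫ x, F K (q i * x (J i) - u i) ∂P + ∫ x, F K (q i * x (J i) - v i) ∂P) := by
      have e1 : ∫ x, w K R (u i) (v i) (q i * x (J i)) ∂P = ∫ x : Fin r → ℝ, (K : ℝ) ^ 2 / R ∂P +
          ∫ x, π ^ 2 / (4 * K) * (F K (q i * x (J i) - u i) + F K (q i * x (J i) - v i)) ∂P :=
        integral_add (integrable_const _)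
          (((integrable_FG K P (q i) (J i) (u i)).add (integrable_FG K P (q i) (J i) (v i))).const_mul _)
      have e2 : ∫ x, (F K (q i * x (J i) - u i) + F K (q i * x (J i) - v i)) ∂P =
          ∫ x, F K (q i * x (J i) - u i) ∂P + ∫ x, F K (q i * x (J i) - v i) ∂P :=
        integral_add (integrable_FG K P (q i) (J i) (u i)) (integrable_FG K P (q i) (J i) (v i))
      rw [e1, integral_const_mul, e2, integral_const]
      simp
    rw [h0]
    have h3 := int_FG hK P (q i) (J i) (u i) Δ (hP i)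
    have h4 := int_FG hK P (q i) (J i) (v i) Δ (hP i)
    rw [abs_le] at h3 h4
    have h5 : ∫ x, F K (q i * x (J i) - u i) ∂P + ∫ x, F K (q i * x (J i) - v i) ∂P ≤ 2 * (1 + K * Δ) := by
      linarith [h3.2, h4.2]
    have h6 : π ^ 2 / (4 * K) * (∫ x, F K (q i * x (J i) - u i) ∂P + ∫ x, F K (q i * x (J i) - v i) ∂P) ≤
        π ^ 2 / (4 * K) * (2 * (1 + K * Δ)) := by gcongr
    have h7 : π ^ 2 / (4 * K) * (2 * (1 + K * Δ)) = π ^ 2 / (2 * K) * (1 + K * Δ) := by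
      field_simp; ring
    linarith
  refine (sum_le_sum h2).trans ?_
  rw [sum_const, card_univ, Fintype.card_fin, nsmul_eq_mul]

/-- **Comparison**: `Q` has vanishing Fourier coefficients -/
theorem testG {k K r : ℕ} (hK : 0 < K) (P Q : Measure (Fin r → ℝ)) [IsProbabilityMeasure P]
    [IsProbabilityMeasure Q] (hQ : ∀ l : Fin r → ℤ, l ≠ 0 → hatG Q l = 0)
    (q : Fin k → ℤ) (hq : ∀ i, q i ≠ 0) (J : Fin k → Fin r) (Δ : ℝ)
    (hΔ : ∀ h : Fin k → ℤ, (∀ i, |h i| ≤ (K : ℤ) ^ 3) → fr q J h ≠ 0 → ‖hatG P (fr q J h)‖ ≤ Δ) (hΔ0 : 0 ≤ Δ)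
    (u v : Fin k → ℝ) (hu : ∀ i, 0 ≤ u i) (hv : ∀ i, v i ≤ 1) :
    |∫ x, ∏ i, ind (u i) (v i) (q i * x (J i)) ∂P - ∫ x, ∏ i, ind (u i) (v i) (q i * x (J i)) ∂Q| ≤
      (2 * (K : ℝ) ^ 3 + 1) ^ k * Δ + k * (12 / K + 5 * Δ) := by
  classical
  have hKR : (0 : ℝ) < K := by exact_mod_cast hK
  have hR : 0 < K ^ 3 := by positivity
  have hsg0 : ∀ (j : Fin r) (l : ℤ), l ≠ 0 → sg j l ≠ 0 := by
    intro j l hl h
    have := congrFun h j
    unfold sg at this
    rw [if_pos rfl] at this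
    exact hl this
  have hP1 : ∀ i, ∀ h : ℤ, h ≠ 0 → |h| ≤ K → ‖hatG P (sg (J i) (h * q i))‖ ≤ Δ := by
    intro i h hh hhK
    have h1 : fr q J (fun j => if j = i then h else 0) = sg (J i) (h * q i) := by
      rw [fr_single]
      rfl
    rw [← h1]
    refine hΔ _ (fun j => ?_) ?_
    · have hK1 : (K : ℤ) ≤ (K : ℤ) ^ 3 := by
        have : (1 : ℤ) ≤ K := by exact_mod_cast hK
        calc (K : ℤ) = K ^ 1 := (pow_one _).symm
          _ ≤ (K : ℤ) ^ 3 := pow_le_pow_right₀ this (by norm_num)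
      by_cases hj : j = i
      · rw [if_pos hj]; exact hhK.trans hK1
      · rw [if_neg hj, abs_zero]; positivity
    · rw [h1]; exact hsg0 _ _ (mul_ne_zero hh (hq i))
  have a1 := approx_oneG hK hR P q J u v hu hv Δ hP1
  have a2 := approx_oneG hK hR Q q J u v hu hv 0 (fun i h hh _ => by
    rw [hQ _ (hsg0 _ _ (mul_ne_zero hh (hq i))), norm_zero])
  have a3 := diff_tpG P Q (fun i => g (K ^ 3) (u i) (v i)) (fun i => TP_g (K ^ 3) (u i) (v i)) q J Δ
    (by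
      intro h hh
      by_cases h0 : fr q J h = 0
      · rw [h0]
        have e1 : hatG P 0 = 1 := by simp [hatG, e_zero]
        have e2 : hatG Q 0 = 1 := by simp [hatG, e_zero]
        rw [e1, e2, sub_self, norm_zero]
        exact hΔ0
      · rw [hQ _ h0, sub_zero]
        exact hΔ h (fun i => by have := hh i; push_cast at this; exact this) h0)
  have hpi : π ^ 2 ≤ 10 := by
    have := pi_lt_d2
    nlinarith [pi_pos]
  have b1 : ((K : ℝ) ^ 2 / ((K ^ 3 : ℕ) : ℝ)) = 1 / K := by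
    push_cast
    field_simp
  rw [b1] at a1 a2
  have b2 : π ^ 2 / (2 * K) * (1 + K * Δ) ≤ 5 / K + 5 * Δ := by
    have : π ^ 2 / (2 * K) * (1 + K * Δ) = π ^ 2 / 2 * (1 / K) + π ^ 2 / 2 * Δ := by
      field_simp
    rw [this]
    have c1 : π ^ 2 / 2 * (1 / K) ≤ 5 * (1 / K) := by gcongr; linarith
    have c2 : π ^ 2 / 2 * Δ ≤ 5 * Δ := by gcongr; linarith
    calc π ^ 2 / 2 * (1 / K) + π ^ 2 / 2 * Δ ≤ 5 * (1 / K) + 5 * Δ := add_le_add c1 c2
      _ = 5 / K + 5 * Δ := by ring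
  have b3 : π ^ 2 / (2 * K) * (1 + K * 0) ≤ 5 / K := by
    have : π ^ 2 / (2 * K) * (1 + K * 0) = π ^ 2 / 2 * (1 / K) := by field_simp; ring
    rw [this]
    have c1 : π ^ 2 / 2 * (1 / K) ≤ 5 * (1 / K) := by gcongr; linarith
    calc π ^ 2 / 2 * (1 / K) ≤ 5 * (1 / K) := c1
      _ = 5 / K := by ring
  have hk : (0 : ℝ) ≤ k := Nat.cast_nonneg k
  have c1 : (k : ℝ) * (1 / K + π ^ 2 / (2 * K) * (1 + K * Δ)) ≤ k * (6 / K + 5 * Δ) := by
    refine mul_le_mul_of_nonneg_left ?_ hk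
    calc 1 / (K : ℝ) + π ^ 2 / (2 * K) * (1 + K * Δ) ≤ 1 / K + (5 / K + 5 * Δ) := by gcongr
      _ = 6 / K + 5 * Δ := by ring
  have c2 : (k : ℝ) * (1 / K + π ^ 2 / (2 * K) * (1 + K * 0)) ≤ k * (6 / K) := by
    refine mul_le_mul_of_nonneg_left ?_ hk
    calc 1 / (K : ℝ) + π ^ 2 / (2 * K) * (1 + K * 0) ≤ 1 / K + 5 / K := by gcongr
      _ = 6 / K := by ring
  have c3 : ((2 * ((K ^ 3 : ℕ) : ℝ) + 1) ^ k) = (2 * (K : ℝ) ^ 3 + 1) ^ k := by push_cast; rfl
  rw [c3] at a3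
  have e4 : (k : ℝ) * (12 / K + 5 * Δ) = k * (6 / K + 5 * Δ) + k * (6 / K) := by ring
  rw [abs_le] at a1 a2 a3 ⊢
  constructor <;> linarith [a1.1, a1.2, a2.1, a2.2, a3.1, a3.2]

/-- power saving from small Fourier coefficients -/
theorem power_oneG (k : ℕ) {η : ℝ} (hη : 0 < η) : ∃ δ : ℝ, 0 < δ ∧ ∃ C : ℝ, ∀ (r M : ℕ), 1 ≤ M →
    ∀ P Q : Measure (Fin r → ℝ), IsProbabilityMeasure P → IsProbabilityMeasure Q → (∀ l : Fin r → ℤ, l ≠ 0 → hatG Q l = 0) →
    ∀ (q : Fin k → ℤ) (J : Fin k → Fin r), (∀ i, q i ≠ 0) →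
    (∀ h : Fin k → ℤ, (∀ i, |(h i : ℝ)| ≤ (M : ℝ) ^ η) → fr q J h ≠ 0 → ‖hatG P (fr q J h)‖ ≤ (M : ℝ) ^ (-η)) →
    ∀ u v : Fin k → ℝ, (∀ i, 0 ≤ u i) → (∀ i, v i ≤ 1) →
      |∫ x, ∏ i, ind (u i) (v i) ((q i : ℝ) * x (J i)) ∂P - ∫ x, ∏ i, ind (u i) (v i) ((q i : ℝ) * x (J i)) ∂Q| ≤ C * (M : ℝ) ^ (-δ) := by
  -- the exponent
  obtain ⟨δ, hδ, hδ1, hδ2⟩ : ∃ δ : ℝ, 0 < δ ∧ 3 * δ ≤ η ∧ 3 * δ * k + δ ≤ η := by
    refine ⟨η / (3 * k + 4), by positivity, ?_, ?_⟩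
    · rw [mul_div_assoc', div_le_iff₀ (by positivity)]
      have : (0 : ℝ) ≤ k := Nat.cast_nonneg k
      nlinarith
    · have hk : (0 : ℝ) ≤ k := Nat.cast_nonneg k
      have e1 : 3 * (η / (3 * k + 4)) * k + η / (3 * k + 4) = η * ((3 * k + 1) / (3 * k + 4)) := by
        field_simp
      rw [e1]
      have : (3 * (k : ℝ) + 1) / (3 * k + 4) ≤ 1 := by
        rw [div_le_one (by positivity)]; linarith
      nlinarith
  refine ⟨δ, hδ, 3 ^ k + k * 29, fun r M hM P Q hP hQp hQ q J hq hG u v hu hv => ?_⟩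
  have hM1 : (1 : ℝ) ≤ M := by exact_mod_cast hM
  have hMpos : (0 : ℝ) < M := by linarith
  obtain ⟨K, hKdef⟩ : ∃ K, K = ⌊(M : ℝ) ^ δ⌋₊ := ⟨_, rfl⟩
  have hMδ : 1 ≤ (M : ℝ) ^ δ := Real.one_le_rpow hM1 hδ.le
  have hK : 0 < K := by rw [hKdef]; exact Nat.floor_pos.2 hMδ
  have hK1 : (K : ℝ) ≤ (M : ℝ) ^ δ := by rw [hKdef]; exact Nat.floor_le (by linarith)
  have hK2 : (M : ℝ) ^ δ ≤ 2 * K := by
    have h1 := Nat.lt_floor_add_one ((M : ℝ) ^ δ)
    have h2 : (1 : ℝ) ≤ K := by exact_mod_cast hK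
    rw [← hKdef] at h1
    linarith
  have hKR : (0 : ℝ) < K := by exact_mod_cast hK
  have hK3 : (K : ℝ) ^ 3 ≤ (M : ℝ) ^ (3 * δ) := by
    calc (K : ℝ) ^ 3 ≤ ((M : ℝ) ^ δ) ^ 3 := by gcongr
      _ = (M : ℝ) ^ (3 * δ) := by
          rw [← Real.rpow_natCast, ← Real.rpow_mul hMpos.le]
          congr 1
          push_cast
          ring
  have hΔ0 : 0 ≤ (M : ℝ) ^ (-η) := by positivity
  have key := testG hK P Q hQ q hq J ((M : ℝ) ^ (-η))
    (by
      intro h hh hne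
      refine hG h (fun i => ?_) hne
      have h1 : |(h i : ℝ)| ≤ (K : ℝ) ^ 3 := by exact_mod_cast hh i
      exact (h1.trans hK3).trans (Real.rpow_le_rpow_of_exponent_le hM1 hδ1)) hΔ0 u v hu hv
  refine key.trans ?_
  have hMM : (M : ℝ) ^ (-η) ≤ (M : ℝ) ^ (-δ) :=
    Real.rpow_le_rpow_of_exponent_le hM1 (by
      have : (0 : ℝ) ≤ k := Nat.cast_nonneg k
      nlinarith)
  have h1 : (2 * (K : ℝ) ^ 3 + 1) ^ k * (M : ℝ) ^ (-η) ≤ 3 ^ k * (M : ℝ) ^ (-δ) := by
    have h2 : 2 * (K : ℝ) ^ 3 + 1 ≤ 3 * (M : ℝ) ^ (3 * δ) := by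
      have : 1 ≤ (M : ℝ) ^ (3 * δ) := Real.one_le_rpow hM1 (by positivity)
      linarith
    calc (2 * (K : ℝ) ^ 3 + 1) ^ k * (M : ℝ) ^ (-η)
        ≤ (3 * (M : ℝ) ^ (3 * δ)) ^ k * (M : ℝ) ^ (-η) := by gcongr
      _ = 3 ^ k * ((M : ℝ) ^ (3 * δ * k) * (M : ℝ) ^ (-η)) := by
          rw [mul_pow, ← Real.rpow_natCast ((M : ℝ) ^ (3 * δ)), ← Real.rpow_mul hMpos.le]
          ring
      _ ≤ 3 ^ k * (M : ℝ) ^ (-δ) := by
          rw [← Real.rpow_add hMpos]
          refine mul_le_mul_of_nonneg_left ?_ (by positivity)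
          exact Real.rpow_le_rpow_of_exponent_le hM1 (by linarith)
  have h2 : 12 / (K : ℝ) ≤ 24 * (M : ℝ) ^ (-δ) := by
    rw [Real.rpow_neg hMpos.le, div_le_iff₀ hKR]
    have h3 : 0 < (M : ℝ) ^ δ := by positivity
    have h4 : 24 * ((M : ℝ) ^ δ)⁻¹ * K = 12 * ((2 * K) / (M : ℝ) ^ δ) := by field_simp; ring
    rw [h4]
    have h5 : 1 ≤ 2 * (K : ℝ) / (M : ℝ) ^ δ := by rw [le_div_iff₀ h3]; linarith
    linarith
  have hk : (0 : ℝ) ≤ k := Nat.cast_nonneg k
  have h3 : (k : ℝ) * (12 / K + 5 * (M : ℝ) ^ (-η)) ≤ k * (29 * (M : ℝ) ^ (-δ)) := by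
    refine mul_le_mul_of_nonneg_left ?_ hk
    linarith
  calc (2 * (K : ℝ) ^ 3 + 1) ^ k * (M : ℝ) ^ (-η) + k * (12 / K + 5 * (M : ℝ) ^ (-η))
      ≤ 3 ^ k * (M : ℝ) ^ (-δ) + k * (29 * (M : ℝ) ^ (-δ)) := add_le_add h1 h3
    _ = (3 ^ k + k * 29) * (M : ℝ) ^ (-δ) := by ring

end Pool.Agent.Y844.DM
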