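import Pool.Agent.Y933.KD.Power

set_option autoImplicit false

/-! Weighted finite measures on the line, and their values on products of intervals
(the proof of `power_one` follows `Pool.Agent.Y933.KD.power`). -/

namespace Pool.Agent.Y844.DM
open Finset MeasureTheory
open scoped ENNReal
open Pool.Agent.Y933.KD (e hat Leb Ev ind test hat_Leb norm_e measurableSet_Ev integral_ind)

/-- the measure with the mass `p ω` at the point `Z ω` -/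
noncomputable def wm {ι : Type} (Ω : Finset ι) (p : ι → ℝ) (Z : ι → ℝ) : Measure ℝ :=
  ∑ ω ∈ Ω, ENNReal.ofReal (p ω) • Measure.dirac (Z ω)

lemma wm_prob {ι : Type} (Ω : Finset ι) (p : ι → ℝ) (hp : ∀ ω ∈ Ω, 0 ≤ p ω) (h1 : ∑ ω ∈ Ω, p ω = 1) (Z : ι → ℝ) :
    IsProbabilityMeasure (wm Ω p Z) := by
  refine ⟨?_⟩
  unfold wm
  rw [Measure.finsetSum_apply]
  simp only [Measure.smul_apply, measure_univ, smul_eq_mul, mul_one]
  rw [← ENNReal.ofReal_sum_of_nonneg hp, h1, ENNReal.ofReal_one]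

lemma integral_wm {ι : Type} (Ω : Finset ι) (p : ι → ℝ) (hp : ∀ ω ∈ Ω, 0 ≤ p ω) (Z : ι → ℝ) (f : ℝ → ℂ) :
    ∫ t, f t ∂(wm Ω p Z) = ∑ ω ∈ Ω, ((p ω : ℝ) : ℂ) * f (Z ω) := by
  unfold wm
  rw [integral_finsetSum_measure]
  · apply sum_congr rfl
    intro ω hω
    rw [integral_smul_measure, integral_dirac, ENNReal.toReal_ofReal (hp ω hω)]
    rfl
  · intro ω _
    exact (integrable_dirac (by simp)).smul_measure ENNReal.ofReal_ne_top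

lemma real_wm {ι : Type} (Ω : Finset ι) (p : ι → ℝ) (hp : ∀ ω ∈ Ω, 0 ≤ p ω) (Z : ι → ℝ) {E : Set ℝ} [DecidablePred fun ω => Z ω ∈ E]
    (hE : MeasurableSet E) : (wm Ω p Z).real E = ∑ ω ∈ Ω, if Z ω ∈ E then p ω else 0 := by
  classical
  unfold wm Measure.real
  rw [Measure.finsetSum_apply]
  simp only [Measure.smul_apply, Measure.dirac_apply' _ hE, smul_eq_mul]
  rw [ENNReal.toReal_sum]
  · apply sum_congr rfl
    intro ω hω
    by_cases h : Z ω ∈ E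
    · rw [Set.indicator_of_mem h, if_pos h, Pi.one_apply, mul_one, ENNReal.toReal_ofReal (hp ω hω)]
    · rw [Set.indicator_of_notMem h, if_neg h, mul_zero, ENNReal.toReal_zero]
  · intro ω _
    apply ENNReal.mul_ne_top ENNReal.ofReal_ne_top
    by_cases h : Z ω ∈ E
    · rw [Set.indicator_of_mem h]; simp
    · rw [Set.indicator_of_notMem h]; simp

/-- power saving from small Fourier coefficients -/
theorem power_one (k : ℕ) {η : ℝ} (hη : 0 < η) : ∃ δ : ℝ, 0 < δ ∧ ∃ C : ℝ, ∀ M : ℕ, 1 ≤ M → ∀ P : Measure ℝ, IsProbabilityMeasure P →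
    ∀ q : Fin k → ℤ, (∀ i, q i ≠ 0) →
    (∀ h : Fin k → ℤ, (∀ i, |(h i : ℝ)| ≤ (M : ℝ) ^ η) → ∑ i, h i * q i ≠ 0 → ‖hat P (∑ i, h i * q i)‖ ≤ (M : ℝ) ^ (-η)) →
    ∀ u v : Fin k → ℝ, (∀ i, 0 ≤ u i) → (∀ i, v i ≤ 1) →
      |∫ x, ∏ i, ind (u i) (v i) ((q i : ℝ) * x) ∂P - ∫ x, ∏ i, ind (u i) (v i) ((q i : ℝ) * x) ∂Leb| ≤ C * (M : ℝ) ^ (-δ) := by
  -- the exponent
  obtain ⟨δ, hδ, hδ1, hδ2⟩ : ∃ δ : ℝ, 0 < δ ∧ 3 * δ ≤ η ∧ 3 * δ * k + δ ≤ η := by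
    refine ⟨η / (3 * k + 4), by positivity, ?_, ?_⟩
    · rw [mul_div_assoc', div_le_iff₀ (by positivity)]
      have : (0 : ℝ) ≤ k := Nat.cast_nonneg k
      nlinarith
    · have hk : (0 : ℝ) ≤ k := Nat.cast_nonneg k
      have e1 : 3 * (η / (3 * k + 4)) * k + η / (3 * k + 4) = η * ((3 * k + 1) / (3 * k + 4)) := by
        field_simp
      rw [e1]
      have : (3 * (k : ℝ) + 1) / (3 * k + 4) ≤ 1 := by
        rw [div_le_one (by positivity)]; linarith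
      nlinarith
  refine ⟨δ, hδ, 3 ^ k + k * 29, fun M hM P hP q hq hG u v hu hv => ?_⟩
  have hM1 : (1 : ℝ) ≤ M := by exact_mod_cast hM
  have hMpos : (0 : ℝ) < M := by linarith
  obtain ⟨K, hKdef⟩ : ∃ K, K = ⌊(M : ℝ) ^ δ⌋₊ := ⟨_, rfl⟩
  have hMδ : 1 ≤ (M : ℝ) ^ δ := Real.one_le_rpow hM1 hδ.le
  have hK : 0 < K := by rw [hKdef]; exact Nat.floor_pos.2 hMδ
  have hK1 : (K : ℝ) ≤ (M : ℝ) ^ δ := by rw [hKdef]; exact Nat.floor_le (by linarith)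
  have hK2 : (M : ℝ) ^ δ ≤ 2 * K := by
    have h1 := Nat.lt_floor_add_one ((M : ℝ) ^ δ)
    have h2 : (1 : ℝ) ≤ K := by exact_mod_cast hK
    rw [← hKdef] at h1
    linarith
  have hKR : (0 : ℝ) < K := by exact_mod_cast hK
  have hK3 : (K : ℝ) ^ 3 ≤ (M : ℝ) ^ (3 * δ) := by
    calc (K : ℝ) ^ 3 ≤ ((M : ℝ) ^ δ) ^ 3 := by gcongr
      _ = (M : ℝ) ^ (3 * δ) := by
          rw [← Real.rpow_natCast, ← Real.rpow_mul hMpos.le]
          congr 1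
          push_cast
          ring
  have hΔ0 : 0 ≤ (M : ℝ) ^ (-η) := by positivity
  have key := test hK P Leb hat_Leb q hq ((M : ℝ) ^ (-η))
    (by
      intro h hh hne
      refine hG h (fun i => ?_) hne
      have h1 : |(h i : ℝ)| ≤ (K : ℝ) ^ 3 := by exact_mod_cast hh i
      exact (h1.trans hK3).trans (Real.rpow_le_rpow_of_exponent_le hM1 hδ1)) hΔ0 u v hu hv
  refine key.trans ?_
  have hMM : (M : ℝ) ^ (-η) ≤ (M : ℝ) ^ (-δ) :=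
    Real.rpow_le_rpow_of_exponent_le hM1 (by
      have : (0 : ℝ) ≤ k := Nat.cast_nonneg k
      nlinarith)
  have h1 : (2 * (K : ℝ) ^ 3 + 1) ^ k * (M : ℝ) ^ (-η) ≤ 3 ^ k * (M : ℝ) ^ (-δ) := by
    have h2 : 2 * (K : ℝ) ^ 3 + 1 ≤ 3 * (M : ℝ) ^ (3 * δ) := by
      have : 1 ≤ (M : ℝ) ^ (3 * δ) := Real.one_le_rpow hM1 (by positivity)
      linarith
    calc (2 * (K : ℝ) ^ 3 + 1) ^ k * (M : ℝ) ^ (-η)
        ≤ (3 * (M : ℝ) ^ (3 * δ)) ^ k * (M : ℝ) ^ (-η) := by gcongr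
      _ = 3 ^ k * ((M : ℝ) ^ (3 * δ * k) * (M : ℝ) ^ (-η)) := by
          rw [mul_pow, ← Real.rpow_natCast ((M : ℝ) ^ (3 * δ)), ← Real.rpow_mul hMpos.le]
          ring
      _ ≤ 3 ^ k * (M : ℝ) ^ (-δ) := by
          rw [← Real.rpow_add hMpos]
          refine mul_le_mul_of_nonneg_left ?_ (by positivity)
          exact Real.rpow_le_rpow_of_exponent_le hM1 (by linarith)
  have h2 : 12 / (K : ℝ) ≤ 24 * (M : ℝ) ^ (-δ) := by
    rw [Real.rpow_neg hMpos.le, div_le_iff₀ hKR]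
    have h3 : 0 < (M : ℝ) ^ δ := by positivity
    have h4 : 24 * ((M : ℝ) ^ δ)⁻¹ * K = 12 * ((2 * K) / (M : ℝ) ^ δ) := by field_simp; ring
    rw [h4]
    have h5 : 1 ≤ 2 * (K : ℝ) / (M : ℝ) ^ δ := by rw [le_div_iff₀ h3]; linarith
    linarith
  have hk : (0 : ℝ) ≤ k := Nat.cast_nonneg k
  have h3 : (k : ℝ) * (12 / K + 5 * (M : ℝ) ^ (-η)) ≤ k * (29 * (M : ℝ) ^ (-δ)) := by
    refine mul_le_mul_of_nonneg_left ?_ hk
    linarith
  calc (2 * (K : ℝ) ^ 3 + 1) ^ k * (M : ℝ) ^ (-η) + k * (12 / K + 5 * (M : ℝ) ^ (-η))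
      ≤ 3 ^ k * (M : ℝ) ^ (-δ) + k * (29 * (M : ℝ) ^ (-δ)) := add_le_add h1 h3
    _ = (3 ^ k + k * 29) * (M : ℝ) ^ (-δ) := by ring

end Pool.Agent.Y844.DM
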