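import Pool.Agent.Y844.DM.Dec
import Pool.Agent.Y844.DM.Wm

set_option autoImplicit false

/-! The digits of the multiples of a number which is not a Liouville number by random integers of a good family. -/

namespace Pool.Agent.Y844.DM
open Finset MeasureTheory Filter Topology
open Pool.Agent.H807R2.Dav (ee norm_ee ee_add)
open Pool.Agent.TH872.Mir (Far farCount)
open Pool.Agent.Y933.KD (e hat Leb Ev ind test hat_Leb norm_e measurableSet_Ev integral_ind)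

lemma e_eq (x : ℝ) : e x = ee x := by
  unfold Pool.Agent.Y933.KD.e Pool.Agent.H807R2.Dav.ee
  congr 1
  push_cast
  ring

/-- the choice of the number of the far places -/
lemma choose_N (f C₀ R : ℕ) (hC : 1 ≤ C₀) (hR : 2 ≤ R) (γ η : ℝ) (hγ0 : 0 ≤ γ) (hγ1 : γ < 1) (hη : 0 < η)
    (ε : ℝ) (hε : 0 < ε) (hε1 : ε < 1) (C₁ : ℝ) (hC₁ : 0 ≤ C₁) : ∃ δ : ℝ, 0 < δ ∧ ∃ k₀ : ℕ, ∀ k : ℕ, k₀ ≤ k → ∃ N : ℕ, (N : ℝ) ≤ η * k ∧
      (∀ a : ℕ, (a : ℝ) ≤ C₁ * (k : ℝ) ^ (1 - ε) + 1 → R ^ (C₀ * (N + 1)) * (f + a + 1) ≤ k) ∧ γ ^ N ≤ (k : ℝ) ^ (-δ) := by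
  obtain ⟨g, hg⟩ : ∃ g, g = max γ (1 / 2) := ⟨_, rfl⟩
  have hg0 : 0 < g := by rw [hg]; exact lt_max_of_lt_right (by norm_num)
  have hg1 : g < 1 := by rw [hg]; exact max_lt hγ1 (by norm_num)
  have hlg : 0 < -Real.log g := by
    have := Real.log_neg hg0 hg1
    linarith
  have hR2 : (2 : ℝ) ≤ R := by exact_mod_cast hR
  have hlR : 0 < Real.log R := Real.log_pos (by linarith)
  have hC0 : (0 : ℝ) < C₀ := by exact_mod_cast hC
  obtain ⟨c, hc⟩ : ∃ c, c = ε / (2 * C₀ * Real.log R) := ⟨_, rfl⟩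
  have hc0 : 0 < c := by rw [hc]; positivity
  have hcC : C₀ * c * Real.log R = ε / 2 := by rw [hc]; field_simp
  have hlog : Tendsto (fun M : ℕ => Real.log (M : ℝ)) atTop atTop := Real.tendsto_log_atTop.comp tendsto_natCast_atTop_atTop
  have hpow : ∀ s : ℝ, 0 < s → Tendsto (fun M : ℕ => (M : ℝ) ^ s) atTop atTop := fun s hs =>
    (tendsto_rpow_atTop hs).comp tendsto_natCast_atTop_atTop
  have hlit : ∀ᶠ M : ℕ in atTop, c * Real.log (M : ℝ) ≤ η * M := by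
    have h1 := (Real.isLittleO_log_id_atTop.comp_tendsto tendsto_natCast_atTop_atTop).def (show 0 < η / c by positivity)
    filter_upwards [h1, eventually_ge_atTop 1] with M hM hM1
    simp only [Function.comp_apply, id_eq, Real.norm_eq_abs] at hM
    have hM0 : (0 : ℝ) ≤ M := Nat.cast_nonneg M
    rw [abs_of_nonneg hM0] at hM
    have h2 := (le_abs_self _).trans hM
    calc c * Real.log (M : ℝ) ≤ c * (η / c * M) := mul_le_mul_of_nonneg_left h2 hc0.le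
      _ = η * M := by field_simp
  obtain ⟨k₀, hk₀⟩ := eventually_atTop.1 (((hlog.eventually_ge_atTop (4 / c)).and
    ((hpow (ε / 2) (by positivity)).eventually_ge_atTop (C₁ + f + 2))).and hlit)
  refine ⟨c / 2 * (-Real.log g), by positivity, k₀ + 1, fun k hk => ?_⟩
  obtain ⟨⟨h1, h2⟩, h3⟩ := hk₀ k (by omega)
  have hk1 : (1 : ℝ) ≤ k := by exact_mod_cast (by omega : 1 ≤ k)
  have hk0 : (0 : ℝ) < k := by linarith
  rw [div_le_iff₀ hc0] at h1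
  obtain ⟨t, ht⟩ : ∃ t, t = c * Real.log (k : ℝ) := ⟨_, rfl⟩
  have ht4 : 4 ≤ t := by rw [ht]; linarith
  obtain ⟨n, hn⟩ : ∃ n, n = ⌊t⌋₊ := ⟨_, rfl⟩
  have hn1 : (n : ℝ) ≤ t := by rw [hn]; exact Nat.floor_le (by linarith)
  have hn2 : t < n + 1 := by rw [hn]; exact Nat.lt_floor_add_one t
  have hn3 : 1 ≤ n := by
    have : (1 : ℝ) < n + 1 := by linarith
    have : (0 : ℝ) < n := by linarith
    exact_mod_cast this
  have hN1 : ((n - 1 : ℕ) : ℝ) = n - 1 := by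
    rw [Nat.cast_sub hn3]; push_cast; ring
  refine ⟨n - 1, ?_, ?_, ?_⟩
  · rw [hN1]
    rw [← ht] at h3
    linarith
  · intro a ha
    rw [Nat.sub_add_cancel hn3]
    have e1 : ((R ^ (C₀ * n) : ℕ) : ℝ) ≤ (k : ℝ) ^ (ε / 2) := by
      push_cast
      rw [← Real.rpow_natCast, Real.rpow_def_of_pos (by linarith), Real.rpow_def_of_pos hk0]
      apply Real.exp_le_exp.2
      push_cast
      have e2 : (C₀ : ℝ) * n * Real.log R ≤ C₀ * t * Real.log R := by gcongr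
      calc Real.log R * (C₀ * n) = C₀ * n * Real.log R := by ring
        _ ≤ C₀ * t * Real.log R := e2
        _ = (C₀ * c * Real.log R) * Real.log k := by rw [ht]; ring
        _ = Real.log k * (ε / 2) := by rw [hcC]; ring
    have e3 : ((f + a + 1 : ℕ) : ℝ) ≤ (C₁ + f + 2) * (k : ℝ) ^ (1 - ε) := by
      have e4 : (1 : ℝ) ≤ (k : ℝ) ^ (1 - ε) := Real.one_le_rpow hk1 (by linarith)
      have hf0 : (0 : ℝ) ≤ f := Nat.cast_nonneg f
      push_cast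
      nlinarith
    have e5 : ((R ^ (C₀ * n) * (f + a + 1) : ℕ) : ℝ) ≤ k := by
      rw [Nat.cast_mul]
      calc ((R ^ (C₀ * n) : ℕ) : ℝ) * ((f + a + 1 : ℕ) : ℝ) ≤ (k : ℝ) ^ (ε / 2) * ((C₁ + f + 2) * (k : ℝ) ^ (1 - ε)) :=
            mul_le_mul e1 e3 (Nat.cast_nonneg _) (by positivity)
        _ ≤ (k : ℝ) ^ (ε / 2) * ((k : ℝ) ^ (ε / 2) * (k : ℝ) ^ (1 - ε)) := by gcongr
        _ = k := by
          rw [← Real.rpow_add hk0, ← Real.rpow_add hk0]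
          have : ε / 2 + (ε / 2 + (1 - ε)) = 1 := by ring
          rw [this, Real.rpow_one]
    exact_mod_cast e5
  · have e1 : γ ^ (n - 1) ≤ g ^ (n - 1) := pow_le_pow_left₀ hγ0 (by rw [hg]; exact le_max_left _ _) _
    refine e1.trans ?_
    rw [← Real.rpow_natCast, Real.rpow_def_of_pos hg0, Real.rpow_def_of_pos hk0]
    apply Real.exp_le_exp.2
    rw [hN1]
    have e2 : t / 2 ≤ (n : ℝ) - 1 := by linarith
    have e3 : Real.log k * -(c / 2 * -Real.log g) = Real.log g * (t / 2) := by rw [ht]; ring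
    rw [e3]
    have e4 : Real.log g ≤ 0 := by linarith
    exact mul_le_mul_of_nonpos_left e2 e4

/-- the characteristic function is small at the multiples of the numbers with a lower bound -/
theorem char_low (b F C₀ τ : ℕ) (hb : 2 ≤ b) (hF : 2 ≤ F) (hC : 1 ≤ C₀) (γ η : ℝ) (hγ0 : 0 ≤ γ) (hγ1 : γ < 1) (hη : 0 < η)
    (ε : ℝ) (hε : 0 < ε) (hε1 : ε < 1) (C₁ : ℝ) (hC₁ : 0 ≤ C₁) : ∃ δ : ℝ, 0 < δ ∧ ∃ k₀ : ℕ, ∀ k : ℕ, k₀ ≤ k →
    ∀ (ι : Type) (Ω : Finset ι) (p : ι → ℝ) (X : ι → ℤ), Dec b F k C₀ γ η Ω p X →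
    ∀ (A : ℕ) (θ : ℝ), 1 ≤ A → LowT τ A θ → (A : ℝ) ≤ Real.exp (C₁ * (k : ℝ) ^ (1 - ε)) →
    ‖∑ ω ∈ Ω, ((p ω : ℝ) : ℂ) * ee ((X ω : ℝ) * θ)‖ ≤ (k : ℝ) ^ (-δ) := by
  obtain ⟨δ, hδ, k₀, h0⟩ := choose_N F C₀ (2 * τ + 2) hC (by omega) γ η hγ0 hγ1 hη ε hε hε1 (2 * C₁) (by positivity)
  refine ⟨δ, hδ, k₀, fun k hk ι Ω p X hdec A θ hA1 hlow hA => ?_⟩
  obtain ⟨N, hN1, hN2, hN3⟩ := h0 k hk
  obtain ⟨t, ht⟩ : ∃ t, t = C₁ * (k : ℝ) ^ (1 - ε) := ⟨_, rfl⟩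
  have ht0 : 0 ≤ t := by rw [ht]; positivity
  obtain ⟨a, ha⟩ : ∃ a, a = ⌈2 * t⌉₊ := ⟨_, rfl⟩
  have ha1 : 2 * t ≤ a := by rw [ha]; exact Nat.le_ceil _
  have ha2 : (a : ℝ) ≤ 2 * t + 1 := by rw [ha]; exact (Nat.ceil_lt_add_one (by positivity)).le
  have hFb : F ≤ b ^ F := (Nat.lt_pow_self (by omega : 1 < b)).le
  have hAa : A ≤ b ^ a := by
    have h1 : (A : ℝ) ≤ ((b ^ a : ℕ) : ℝ) := by
      rw [← ht] at hA
      refine hA.trans ?_
      push_cast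
      have h2 : (2 : ℝ) ^ a ≤ (b : ℝ) ^ a := pow_le_pow_left₀ (by norm_num) (by exact_mod_cast hb) a
      refine le_trans ?_ h2
      have h3 : (2 : ℝ) ^ a = Real.exp (a * Real.log 2) := by
        rw [← Real.rpow_natCast, Real.rpow_def_of_pos (by norm_num), mul_comm]
      rw [h3]
      apply Real.exp_le_exp.2
      have h4 : (1 / 2 : ℝ) ≤ Real.log 2 := by linarith [Real.log_two_gt_d9]
      calc t = (2 * t) * (1 / 2) := by ring
        _ ≤ a * Real.log 2 := mul_le_mul ha1 h4 (by norm_num) (Nat.cast_nonneg _)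
    exact_mod_cast h1
  have h5 := hN2 a (by
    have : 2 * C₁ * (k : ℝ) ^ (1 - ε) = 2 * t := by rw [ht]; ring
    rw [this]
    exact ha2)
  have h6 := far_count b hb F F hF hFb τ A hA1 θ hlow a hAa (C₀ * (N + 1)) k h5
  exact (hdec θ N hN1 h6).trans hN3

/-- the size of the frequencies -/
lemma size_bound (K B : ℕ) (ε : ℝ) (hε1 : ε < 1) (k : ℕ) (hk : 1 ≤ k) (q n : Fin K → ℕ) (hq : ∀ i, 1 ≤ q i ∧ q i ≤ B)
    (hn : ∀ i, (n i : ℝ) ≤ (k : ℝ) ^ (1 - ε)) (h : Fin K → ℤ) (hh : ∀ i, |(h i : ℝ)| ≤ k) (κ : ℤ)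
    (hκ : |(κ : ℝ)| ≤ Real.exp ((k : ℝ) ^ (1 - ε))) :
    (∑ i, |(h i : ℝ)| * (q i : ℝ) ^ n i) * |(κ : ℝ)| ≤ Real.exp ((K + 1 / (1 - ε) + B + 1) * (k : ℝ) ^ (1 - ε)) := by
  have hk1 : (1 : ℝ) ≤ k := by exact_mod_cast hk
  have hk0 : (0 : ℝ) < k := by linarith
  obtain ⟨Y, hY⟩ : ∃ Y, Y = (k : ℝ) ^ (1 - ε) := ⟨_, rfl⟩
  rw [← hY] at hn hκ ⊢
  have hY1 : 1 ≤ Y := by rw [hY]; exact Real.one_le_rpow hk1 (by linarith)
  have hkY : (k : ℝ) ≤ Real.exp (1 / (1 - ε) * Y) := by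
    have h1 := Real.log_le_rpow_div hk0.le (by linarith : 0 < 1 - ε)
    rw [← hY] at h1
    calc (k : ℝ) = Real.exp (Real.log k) := (Real.exp_log hk0).symm
      _ ≤ Real.exp (1 / (1 - ε) * Y) := by
          apply Real.exp_le_exp.2
          refine h1.trans (le_of_eq ?_)
          ring
  have hKY : (K : ℝ) ≤ Real.exp (K * Y) := by
    have h1 : (K : ℝ) ≤ K * Y := by nlinarith [(Nat.cast_nonneg K : (0 : ℝ) ≤ K)]
    have h2 := Real.add_one_le_exp ((K : ℝ) * Y)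
    linarith
  have hterm : ∀ i, |(h i : ℝ)| * (q i : ℝ) ^ n i ≤ Real.exp (1 / (1 - ε) * Y) * Real.exp (B * Y) := by
    intro i
    apply mul_le_mul ((hh i).trans hkY) _ (by positivity) (by positivity)
    have h1 : (q i : ℝ) ≤ Real.exp B := by
      have h2 : (q i : ℝ) ≤ B := by exact_mod_cast (hq i).2
      have h3 := Real.add_one_le_exp (B : ℝ)
      linarith
    calc (q i : ℝ) ^ n i ≤ (Real.exp B) ^ n i := pow_le_pow_left₀ (Nat.cast_nonneg _) h1 _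
      _ = Real.exp (n i * B) := by rw [← Real.exp_nat_mul]
      _ ≤ Real.exp (B * Y) := by
          apply Real.exp_le_exp.2
          have := mul_le_mul_of_nonneg_right (hn i) (Nat.cast_nonneg B : (0 : ℝ) ≤ B)
          linarith
  have hsum : ∑ i, |(h i : ℝ)| * (q i : ℝ) ^ n i ≤ K * (Real.exp (1 / (1 - ε) * Y) * Real.exp (B * Y)) := by
    refine (sum_le_sum fun i _ => hterm i).trans (le_of_eq ?_)
    rw [sum_const, card_univ, Fintype.card_fin, nsmul_eq_mul]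
  calc (∑ i, |(h i : ℝ)| * (q i : ℝ) ^ n i) * |(κ : ℝ)| ≤
      (Real.exp (K * Y) * (Real.exp (1 / (1 - ε) * Y) * Real.exp (B * Y))) * Real.exp Y := by
        apply mul_le_mul _ hκ (abs_nonneg _) (by positivity)
        exact hsum.trans (mul_le_mul_of_nonneg_right hKY (by positivity))
    _ = _ := by
        rw [← Real.exp_add, ← Real.exp_add, ← Real.exp_add]
        congr 1
        ring

open Classical in
/-- **Digit tests for the multiples of one number** -/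
theorem tests1 (b F C₀ τ : ℕ) (hb : 2 ≤ b) (hF : 2 ≤ F) (hC : 1 ≤ C₀) (γ η : ℝ) (hγ0 : 0 ≤ γ) (hγ1 : γ < 1) (hη : 0 < η)
    (B K : ℕ) (ε : ℝ) (hε : 0 < ε) (hε1 : ε < 1) : ∃ δ : ℝ, 0 < δ ∧ ∃ C : ℝ, ∀ k : ℕ, 1 ≤ k →
    ∀ (ι : Type) (Ω : Finset ι) (p : ι → ℝ) (X : ι → ℤ), (∀ ω ∈ Ω, 0 ≤ p ω) → ∑ ω ∈ Ω, p ω = 1 → Dec b F k C₀ γ η Ω p X →
    ∀ x : ℝ, Dio τ x → ∀ (κ : ℤ) (y : ℝ), κ ≠ 0 → |(κ : ℝ)| ≤ Real.exp ((k : ℝ) ^ (1 - ε)) →
    ∀ q n : Fin K → ℕ, (∀ i, 1 ≤ q i ∧ q i ≤ B) → (∀ i, (n i : ℝ) ≤ (k : ℝ) ^ (1 - ε)) →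
    ∀ u v : Fin K → ℝ, (∀ i, 0 ≤ u i) → (∀ i, v i ≤ 1) →
    |∑ ω ∈ Ω, (if κ * X ω * x + y ∈ Ev q n u v then p ω else 0) - Leb.real (Ev q n u v)| ≤ C * (k : ℝ) ^ (-δ) := by
  obtain ⟨δ₀, hδ₀, k₀, h0⟩ := char_low b F C₀ τ hb hF hC γ η hγ0 hγ1 hη ε hε hε1 (K + 1 / (1 - ε) + B + 1) (by
    have : 0 < 1 - ε := by linarith
    positivity)
  obtain ⟨δ, hδ, C, hC'⟩ := power_one K (η := min δ₀ 1) (lt_min hδ₀ one_pos)
  refine ⟨δ, hδ, max C ((k₀ : ℝ) ^ δ), fun k hk ι Ω p X hp hp1 hdec x hx κ y hκ0 hκ q n hq hn u v hu hv => ?_⟩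
  have hk1 : (1 : ℝ) ≤ k := by exact_mod_cast hk
  have hk0 : (0 : ℝ) < k := by linarith
  have hPr := wm_prob Ω p hp hp1 (fun ω => κ * X ω * x + y)
  have hreal := real_wm Ω p hp (fun ω => κ * X ω * x + y) (measurableSet_Ev q n u v)
  rw [← hreal]
  rcases lt_or_ge k k₀ with hlt | hge
  · have h1 : (wm Ω p (fun ω => κ * X ω * x + y)).real (Ev q n u v) ≤ 1 := measureReal_le_one
    have h2 : Leb.real (Ev q n u v) ≤ 1 := measureReal_le_one
    have h3 : 0 ≤ (wm Ω p (fun ω => κ * X ω * x + y)).real (Ev q n u v) := measureReal_nonneg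
    have h4 : 0 ≤ Leb.real (Ev q n u v) := measureReal_nonneg
    have h5 : |(wm Ω p (fun ω => κ * X ω * x + y)).real (Ev q n u v) - Leb.real (Ev q n u v)| ≤ 1 := by
      rw [abs_le]
      constructor <;> linarith
    have h6 : (k : ℝ) ^ δ ≤ (k₀ : ℝ) ^ δ := by
      apply Real.rpow_le_rpow hk0.le _ hδ.le
      exact_mod_cast hlt.le
    calc |(wm Ω p (fun ω => κ * X ω * x + y)).real (Ev q n u v) - Leb.real (Ev q n u v)| ≤ 1 := h5
      _ = (k : ℝ) ^ δ * (k : ℝ) ^ (-δ) := by rw [← Real.rpow_add hk0]; simp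
      _ ≤ max C ((k₀ : ℝ) ^ δ) * (k : ℝ) ^ (-δ) := by
          gcongr
          exact h6.trans (le_max_right _ _)
  · have key := hC' k hk _ hPr (fun i => (q i : ℤ) ^ n i) (fun i => by
      have : (q i : ℤ) ≠ 0 := by have := (hq i).1; omega
      exact pow_ne_zero _ this) (by
      intro h hh hne
      obtain ⟨l, hl⟩ : ∃ l : ℤ, l = ∑ i, h i * (q i : ℤ) ^ n i := ⟨_, rfl⟩
      rw [← hl] at hne ⊢
      have hsize := size_bound K B ε hε1 k hk q n hq hn h (fun i => by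
        refine (hh i).trans ?_
        calc (k : ℝ) ^ (min δ₀ 1) ≤ (k : ℝ) ^ (1 : ℝ) := Real.rpow_le_rpow_of_exponent_le hk1 (min_le_right _ _)
          _ = k := Real.rpow_one _) κ hκ
      have hlκ : l * κ ≠ 0 := mul_ne_zero hne hκ0
      have hA1 : 1 ≤ (l * κ).natAbs := Int.natAbs_pos.2 hlκ
      have hA : (((l * κ).natAbs : ℕ) : ℝ) ≤ Real.exp ((K + 1 / (1 - ε) + B + 1) * (k : ℝ) ^ (1 - ε)) := by
        refine le_trans ?_ hsize
        rw [Nat.cast_natAbs, abs_mul]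
        push_cast
        apply mul_le_mul_of_nonneg_right _ (abs_nonneg _)
        rw [hl]
        push_cast
        refine (abs_sum_le_sum_abs _ _).trans (le_of_eq ?_)
        apply sum_congr rfl
        intro i _
        rw [abs_mul, abs_of_nonneg (by positivity : (0 : ℝ) ≤ (q i : ℝ) ^ n i)]
      have h1 := h0 k hge ι Ω p X hdec (l * κ).natAbs (((l * κ : ℤ) : ℝ) * x) hA1 (hx.low (l * κ) hlκ) hA
      have h2 : hat (wm Ω p (fun ω => κ * X ω * x + y)) l =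
          ee (l * y) * ∑ ω ∈ Ω, ((p ω : ℝ) : ℂ) * ee ((X ω : ℝ) * (((l * κ : ℤ) : ℝ) * x)) := by
        unfold Pool.Agent.Y933.KD.hat
        rw [integral_wm Ω p hp _ (fun t => e (l * t)), mul_sum]
        apply sum_congr rfl
        intro ω _
        rw [e_eq, mul_left_comm, ← ee_add]
        congr 2
        push_cast
        ring
      rw [h2, norm_mul, norm_ee, one_mul]
      refine h1.trans ?_
      exact Real.rpow_le_rpow_of_exponent_le hk1 (by linarith [min_le_left δ₀ 1])) u v hu hv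
    have hPr' : IsProbabilityMeasure (wm Ω p (fun ω => κ * X ω * x + y)) := hPr
    rw [integral_ind, integral_ind] at key
    refine key.trans ?_
    gcongr
    exact le_max_left _ _

end Pool.Agent.Y844.DM
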