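import Pool.Agent.Y844.DM.Tests
import Pool.Agent.Y844.DM.TestG

set_option autoImplicit false

/-! The digits of the multiples of several numbers with a measure of linear independence by random integers of a good
family. -/

namespace Pool.Agent.Y844.DM
open Finset MeasureTheory Filter Topology
open scoped ENNReal
open Pool.Agent.H807R2.Dav (ee norm_ee ee_add)
open Pool.Agent.Y933.KD (e hat ind measurable_ind hat_Leb norm_e)

/-- Lebesgue measure on `[0, 1) ^ r` -/
noncomputable def LebG (r : ℕ) : Measure (Fin r → ℝ) := Measure.pi fun _ => Pool.Agent.Y933.KD.Leb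

instance (r : ℕ) : IsProbabilityMeasure (LebG r) := by unfold LebG; infer_instance

lemma hatG_Leb (r : ℕ) (l : Fin r → ℤ) (hl : l ≠ 0) : hatG (LebG r) l = 0 := by
  unfold hatG LebG
  have h1 : ∀ x : Fin r → ℝ, e (∑ j, (l j : ℝ) * x j) = ∏ j, e ((l j : ℝ) * x j) := fun x => Pool.Agent.Y933.KD.e_sum _ _
  simp only [h1]
  rw [integral_fintype_prod_eq_prod (𝕜 := ℂ) (fun j (t : ℝ) => e ((l j : ℝ) * t))]
  have h2 : ∃ j, l j ≠ 0 := by
    by_contra hcon
    push Not at hcon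
    exact hl (funext hcon)
  obtain ⟨j, hj⟩ := h2
  exact prod_eq_zero (mem_univ j) (hat_Leb (l j) hj)

/-- the event: the numbers `q i ^ n i * x (J i)` lie in the intervals `[u i, v i)` modulo one -/
def EvG {K r : ℕ} (q n : Fin K → ℕ) (J : Fin K → Fin r) (u v : Fin K → ℝ) : Set (Fin r → ℝ) :=
  {x | ∀ i, u i ≤ Int.fract ((q i : ℝ) ^ n i * x (J i)) ∧ Int.fract ((q i : ℝ) ^ n i * x (J i)) < v i}

lemma measurableSet_EvG {K r : ℕ} (q n : Fin K → ℕ) (J : Fin K → Fin r) (u v : Fin K → ℝ) : MeasurableSet (EvG q n J u v) := by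
  unfold EvG
  rw [Set.ofPred_forall]
  refine MeasurableSet.iInter fun i => ?_
  have h1 : Measurable (fun x : Fin r → ℝ => Int.fract ((q i : ℝ) ^ n i * x (J i))) :=
    measurable_fract.comp (by fun_prop)
  exact (measurableSet_le measurable_const h1).inter (measurableSet_lt h1 measurable_const)

lemma integral_indG {K r : ℕ} (P : Measure (Fin r → ℝ)) [IsProbabilityMeasure P] (q n : Fin K → ℕ) (J : Fin K → Fin r)
    (u v : Fin K → ℝ) :
    ∫ x, ∏ i, ind (u i) (v i) ((((q i : ℤ) ^ n i : ℤ) : ℝ) * x (J i)) ∂P = P.real (EvG q n J u v) := by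
  classical
  rw [← integral_indicator_one (measurableSet_EvG q n J u v)]
  refine integral_congr_ae (Filter.Eventually.of_forall fun x => ?_)
  simp only
  by_cases hx : x ∈ EvG q n J u v
  · rw [Set.indicator_of_mem hx, Pi.one_apply]
    refine prod_eq_one fun i _ => ?_
    unfold Pool.Agent.Y933.KD.ind
    rw [if_pos]
    have := hx i
    push_cast
    exact this
  · rw [Set.indicator_of_notMem hx]
    have h1 : ∃ i, ¬ (u i ≤ Int.fract ((q i : ℝ) ^ n i * x (J i)) ∧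
        Int.fract ((q i : ℝ) ^ n i * x (J i)) < v i) := by
      by_contra hcon
      push Not at hcon
      exact hx hcon
    obtain ⟨i, hi⟩ := h1
    refine prod_eq_zero (mem_univ i) ?_
    unfold Pool.Agent.Y933.KD.ind
    rw [if_neg]
    push_cast
    exact hi

/-- the measure with the mass `p ω` at the point `Z ω` -/
noncomputable def wmG {ι : Type} {r : ℕ} (Ω : Finset ι) (p : ι → ℝ) (Z : ι → Fin r → ℝ) : Measure (Fin r → ℝ) :=
  ∑ ω ∈ Ω, ENNReal.ofReal (p ω) • Measure.dirac (Z ω)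

lemma wmG_prob {ι : Type} {r : ℕ} (Ω : Finset ι) (p : ι → ℝ) (hp : ∀ ω ∈ Ω, 0 ≤ p ω) (h1 : ∑ ω ∈ Ω, p ω = 1) (Z : ι → Fin r → ℝ) :
    IsProbabilityMeasure (wmG Ω p Z) := by
  refine ⟨?_⟩
  unfold wmG
  rw [Measure.finsetSum_apply]
  simp only [Measure.smul_apply, measure_univ, smul_eq_mul, mul_one]
  rw [← ENNReal.ofReal_sum_of_nonneg hp, h1, ENNReal.ofReal_one]

lemma integral_wmG {ι : Type} {r : ℕ} (Ω : Finset ι) (p : ι → ℝ) (hp : ∀ ω ∈ Ω, 0 ≤ p ω) (Z : ι → Fin r → ℝ) (f : (Fin r → ℝ) → ℂ) :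
    ∫ t, f t ∂(wmG Ω p Z) = ∑ ω ∈ Ω, ((p ω : ℝ) : ℂ) * f (Z ω) := by
  unfold wmG
  rw [integral_finsetSum_measure]
  · apply sum_congr rfl
    intro ω hω
    rw [integral_smul_measure, integral_dirac, ENNReal.toReal_ofReal (hp ω hω)]
    rfl
  · intro ω _
    exact (integrable_dirac (by simp)).smul_measure ENNReal.ofReal_ne_top

lemma real_wmG {ι : Type} {r : ℕ} (Ω : Finset ι) (p : ι → ℝ) (hp : ∀ ω ∈ Ω, 0 ≤ p ω) (Z : ι → Fin r → ℝ) {E : Set (Fin r → ℝ)}
    [DecidablePred fun ω => Z ω ∈ E] (hE : MeasurableSet E) : (wmG Ω p Z).real E = ∑ ω ∈ Ω, if Z ω ∈ E then p ω else 0 := by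
  classical
  unfold wmG Measure.real
  rw [Measure.finsetSum_apply]
  simp only [Measure.smul_apply, Measure.dirac_apply' _ hE, smul_eq_mul]
  rw [ENNReal.toReal_sum]
  · apply sum_congr rfl
    intro ω hω
    by_cases h : Z ω ∈ E
    · rw [Set.indicator_of_mem h, if_pos h, Pi.one_apply, mul_one, ENNReal.toReal_ofReal (hp ω hω)]
    · rw [Set.indicator_of_notMem h, if_neg h, mul_zero, ENNReal.toReal_zero]
  · intro ω _
    apply ENNReal.mul_ne_top ENNReal.ofReal_ne_top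
    by_cases h : Z ω ∈ E
    · rw [Set.indicator_of_mem h]; simp
    · rw [Set.indicator_of_notMem h]; simp

open Classical in
/-- **Joint digit tests for the multiples of several numbers** -/
theorem testsG (b F C₀ τ : ℕ) (hb : 2 ≤ b) (hF : 2 ≤ F) (hC : 1 ≤ C₀) (γ η : ℝ) (hγ0 : 0 ≤ γ) (hγ1 : γ < 1) (hη : 0 < η)
    (B K : ℕ) (ε : ℝ) (hε : 0 < ε) (hε1 : ε < 1) : ∃ δ : ℝ, 0 < δ ∧ ∃ C : ℝ, ∀ k : ℕ, 1 ≤ k →
    ∀ (ι : Type) (Ω : Finset ι) (p : ι → ℝ) (X : ι → ℤ), (∀ ω ∈ Ω, 0 ≤ p ω) → ∑ ω ∈ Ω, p ω = 1 → Dec b F k C₀ γ η Ω p X →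
    ∀ (r : ℕ) (x : Fin r → ℝ), DioL τ x → ∀ (κ : ℤ) (y : Fin r → ℝ), κ ≠ 0 → |(κ : ℝ)| ≤ Real.exp ((k : ℝ) ^ (1 - ε)) →
    ∀ (q n : Fin K → ℕ) (J : Fin K → Fin r), (∀ i, 1 ≤ q i ∧ q i ≤ B) → (∀ i, (n i : ℝ) ≤ (k : ℝ) ^ (1 - ε)) →
    ∀ u v : Fin K → ℝ, (∀ i, 0 ≤ u i) → (∀ i, v i ≤ 1) →
    |∑ ω ∈ Ω, (if (fun j => κ * X ω * x j + y j) ∈ EvG q n J u v then p ω else 0) - (LebG r).real (EvG q n J u v)| ≤ C * (k : ℝ) ^ (-δ) := by
  obtain ⟨δ₀, hδ₀, k₀, h0⟩ := char_low b F C₀ τ hb hF hC γ η hγ0 hγ1 hη ε hε hε1 (K + 1 / (1 - ε) + B + 1) (by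
    have : 0 < 1 - ε := by linarith
    positivity)
  obtain ⟨δ, hδ, C, hC'⟩ := power_oneG K (η := min δ₀ 1) (lt_min hδ₀ one_pos)
  refine ⟨δ, hδ, max C ((k₀ : ℝ) ^ δ), fun k hk ι Ω p X hp hp1 hdec r x hx κ y hκ0 hκ q n J hq hn u v hu hv => ?_⟩
  have hk1 : (1 : ℝ) ≤ k := by exact_mod_cast hk
  have hk0 : (0 : ℝ) < k := by linarith
  have hPr := wmG_prob Ω p hp hp1 (fun ω j => κ * X ω * x j + y j)
  have hreal := real_wmG Ω p hp (fun ω j => κ * X ω * x j + y j) (measurableSet_EvG q n J u v)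
  rw [← hreal]
  rcases lt_or_ge k k₀ with hlt | hge
  · have h1 : (wmG Ω p (fun ω j => κ * X ω * x j + y j)).real (EvG q n J u v) ≤ 1 := measureReal_le_one
    have h2 : (LebG r).real (EvG q n J u v) ≤ 1 := measureReal_le_one
    have h3 : 0 ≤ (wmG Ω p (fun ω j => κ * X ω * x j + y j)).real (EvG q n J u v) := measureReal_nonneg
    have h4 : 0 ≤ (LebG r).real (EvG q n J u v) := measureReal_nonneg
    have h5 : |(wmG Ω p (fun ω j => κ * X ω * x j + y j)).real (EvG q n J u v) - (LebG r).real (EvG q n J u v)| ≤ 1 := by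
      rw [abs_le]
      constructor <;> linarith
    have h6 : (k : ℝ) ^ δ ≤ (k₀ : ℝ) ^ δ := by
      apply Real.rpow_le_rpow hk0.le _ hδ.le
      exact_mod_cast hlt.le
    calc |(wmG Ω p (fun ω j => κ * X ω * x j + y j)).real (EvG q n J u v) - (LebG r).real (EvG q n J u v)| ≤ 1 := h5
      _ = (k : ℝ) ^ δ * (k : ℝ) ^ (-δ) := by rw [← Real.rpow_add hk0]; simp
      _ ≤ max C ((k₀ : ℝ) ^ δ) * (k : ℝ) ^ (-δ) := by
          gcongr
          exact h6.trans (le_max_right _ _)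
  · have key := hC' r k hk _ (LebG r) hPr inferInstance (hatG_Leb r) (fun i => (q i : ℤ) ^ n i) J (fun i => by
      have : (q i : ℤ) ≠ 0 := by have := (hq i).1; omega
      exact pow_ne_zero _ this) (by
      intro h hh hne
      obtain ⟨l, hl⟩ : ∃ l : Fin r → ℤ, l = fr (fun i => (q i : ℤ) ^ n i) J h := ⟨_, rfl⟩
      rw [← hl] at hne ⊢
      have hsize := size_bound K B ε hε1 k hk q n hq hn h (fun i => by
        refine (hh i).trans ?_
        calc (k : ℝ) ^ (min δ₀ 1) ≤ (k : ℝ) ^ (1 : ℝ) := Real.rpow_le_rpow_of_exponent_le hk1 (min_le_right _ _)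
          _ = k := Real.rpow_one _) κ hκ
      obtain ⟨T, hT⟩ : ∃ T, T = Real.exp ((K + 1 / (1 - ε) + B + 1) * (k : ℝ) ^ (1 - ε)) := ⟨_, rfl⟩
      rw [← hT] at hsize
      have hT1 : 1 ≤ T := by
        rw [hT]
        apply Real.one_le_exp
        have : 0 < 1 - ε := by linarith
        positivity
      obtain ⟨A, hA⟩ : ∃ A : ℕ, A = ⌊T⌋₊ := ⟨_, rfl⟩
      have hA1 : 1 ≤ A := by rw [hA]; exact Nat.floor_pos.2 hT1
      have hAT : (A : ℝ) ≤ T := by rw [hA]; exact Nat.floor_le (by linarith)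
      have hlA : ∀ j, (κ * l j).natAbs ≤ A := by
        intro j
        rw [hA]
        apply Nat.le_floor
        refine le_trans ?_ hsize
        rw [Nat.cast_natAbs, abs_mul]
        push_cast
        rw [mul_comm]
        apply mul_le_mul_of_nonneg_right _ (abs_nonneg _)
        rw [hl]
        unfold fr
        push_cast
        refine (abs_sum_le_sum_abs _ _).trans ?_
        apply sum_le_sum
        intro i _
        split_ifs
        · rw [abs_mul, abs_of_nonneg (by positivity : (0 : ℝ) ≤ (q i : ℝ) ^ n i)]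
        · rw [abs_zero]; positivity
      have hκl : (fun j => κ * l j) ≠ 0 := by
        intro h1
        apply hne
        ext j
        have h2 := congrFun h1 j
        have h3 : κ * l j = 0 := h2
        rcases mul_eq_zero.1 h3 with h4 | h4
        · exact absurd h4 hκ0
        · exact h4
      have h1 := h0 k hge ι Ω p X hdec A (∑ j, (((κ * l j : ℤ)) : ℝ) * x j) hA1 (hx.low (fun j => κ * l j) hκl A hlA hA1) (by
        rw [← hT]; exact hAT)
      have h2 : hatG (wmG Ω p (fun ω j => κ * X ω * x j + y j)) l =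
          ee (∑ j, (l j : ℝ) * y j) * ∑ ω ∈ Ω, ((p ω : ℝ) : ℂ) * ee ((X ω : ℝ) * ∑ j, (((κ * l j : ℤ)) : ℝ) * x j) := by
        unfold hatG
        rw [integral_wmG Ω p hp _ (fun t => e (∑ j, (l j : ℝ) * t j)), mul_sum]
        apply sum_congr rfl
        intro ω _
        rw [e_eq, mul_left_comm, ← ee_add]
        congr 2
        rw [mul_sum, ← sum_add_distrib]
        apply sum_congr rfl
        intro j _
        push_cast
        ring
      rw [h2, norm_mul, norm_ee, one_mul]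
      refine h1.trans ?_
      exact Real.rpow_le_rpow_of_exponent_le hk1 (by linarith [min_le_left δ₀ 1])) u v hu hv
    have hPr' : IsProbabilityMeasure (wmG Ω p (fun ω j => κ * X ω * x j + y j)) := hPr
    rw [integral_indG, integral_indG] at key
    refine key.trans ?_
    gcongr
    exact le_max_left _ _

end Pool.Agent.Y844.DM
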